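import Mathlib
import Pool.Agent.N694.SP.Spr
import Pool.Agent.R493.ST.TrC
/-!
# Exact sets of prime forms on spread sets

The exponent of the logarithm in `Pool.Agent.N694.SP.hitS` is the dimension `T K + 1` of the sieve; the exact sets of
prime forms (`Pool.Agent.R493.ST.tracec_nat`) are obtained on spread sets.
-/

set_option autoImplicit false

namespace Pool.Agent.HP27.S3

open Finset Filter Topology
open Pool.Agent.Y827.GS
open Pool.Agent.Y827.RO
open Pool.Agent.N694.PW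
open Pool.Agent.N694.SP
open Pool.Agent.TH779.Shat (tr mem_tr congruences)

open Classical in
/-- the coloured theorem with spread sets, with the exponent (same proof as `hitS`) -/
theorem hitU (T : ℕ) : ∃ K : ℕ, 1 ≤ K ∧ (1 ≤ T → ∀ H : Fin T → Fin K → ℤ × ℤ,
    Function.Injective (fun x : Fin T × Fin K => H x.1 x.2) →
    (∀ g i, 0 < (H g i).1 ∧ IsCoprime (H g i).1 (H g i).2) →
    (∀ p : ℕ, p.Prime → p ≤ T * K → ∃ r : ℤ, ∀ g i, ¬ (p : ℤ) ∣ (H g i).1 * r + (H g i).2) →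
    ∀ s : ℕ, ∃ (c C : ℝ), 0 < c ∧ 0 < C ∧ ∀ᶠ N : ℕ in atTop, ∃ (S : Finset (Fin T))
      (σ : Fin T → Fin K), (T : ℝ) ≤ (18 / 5) * (S.card : ℝ) ∧
      ∃ R : Finset ℕ, Spr (T * K + 1) s c C N R ∧
        ∀ m ∈ R, ∀ g ∈ S, ((H g (σ g)).1 * (m : ℤ) + (H g (σ g)).2).toNat.Prime) := by
  rcases Nat.eq_zero_or_pos T with hT0 | hT
  · subst hT0
    exact ⟨1, le_rfl, fun h => absurd h (by norm_num)⟩
  obtain ⟨M, hM1, hM2⟩ := ceilM T hT
  obtain ⟨K, hK, δ, hδ, H0⟩ := lamR0 T M hT hM1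
  refine ⟨K, hK, fun _ H hinj hpos hloc s => ?_⟩
  obtain ⟨A, hA⟩ := adf_ev (univ.image (fun x : Fin T × Fin K => H x.1 x.2)) (by
    intro f hf
    obtain ⟨x, -, rfl⟩ := mem_image.1 hf
    exact hpos _ _)
  obtain ⟨s₀, c₀, hc₀, H1⟩ := H0 A
  choose Cs hCs0 hCs using fun s : ℕ => upF H hinj hpos δ hδ s
  obtain ⟨CC, hCC⟩ : ∃ CC : ℝ, CC = ∑ s ∈ range (s₀ + 1), Cs s := ⟨_, rfl⟩
  have hCC0 : 0 < CC := by
    rw [hCC]
    exact sum_pos (fun s _ => hCs0 s) ⟨0, mem_range.2 (by omega)⟩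
  have hCle : ∀ s ≤ s₀, Cs s ≤ CC := by
    intro s hs
    rw [hCC]
    exact single_le_sum (f := Cs) (fun s _ => (hCs0 s).le) (mem_range.2 (by omega))
  have hupall : ∀ᶠ X : ℕ in atTop, ∀ s ∈ range (s₀ + 1), (∀ g i, (H g i).2 + (H g i).1 * s ≠ 0) → ∀ A : ℕ,
      (((Ioc A (A + X)).filter (fun n : ℕ =>
        (∀ p : ℕ, p.Prime → Real.log p ≤ δ * Real.log X → ¬ (p : ℤ) ∣ (n : ℤ) - s) ∧
        (∀ g i, ∀ p : ℕ, p.Prime → Real.log p ≤ δ * Real.log X →
          ¬ (p : ℤ) ∣ (H g i).1 * n + (H g i).2))).card : ℝ) ≤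
        Cs s * (X / Real.log X ^ (T * K + 1)) := by
    rw [Filter.eventually_all_finset]
    intro s _
    by_cases hs : ∀ g i, (H g i).2 + (H g i).1 * s ≠ 0
    · filter_upwards [hCs s hs] with X hX _
      exact hX
    · exact Eventually.of_forall fun X h => absurd h hs
  obtain ⟨X₀, hX₀⟩ := eventually_atTop.1 hupall
  refine ⟨c₀, CC * ((s : ℝ) + 1) ^ (T * K + 1), hc₀, by positivity, ?_⟩
  filter_upwards [H1, hA, eventually_gt_atTop (X₀ ^ (s + 1) + 3)] with N hN1 hN2 hN3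
  obtain ⟨s', S, σ, hs, hs1, -, hS, hcard⟩ := hN1 H hinj
    (fun g i => hN2 _ (mem_image.2 ⟨(g, i), mem_univ _, rfl⟩)) hloc
  refine ⟨S, σ, hM2.trans (mul_le_mul_of_nonneg_left (by exact_mod_cast hS) (by norm_num)),
    Rs H δ s' S σ N, ?_, ?_⟩
  · refine sprR (δ := δ) (X₀ := X₀) (by omega) (by omega) hδ hCC0
      (fun x n => (∀ p : ℕ, p.Prime → Real.log p ≤ x → ¬ (p : ℤ) ∣ (n : ℤ) - s') ∧
        (∀ g i, ∀ p : ℕ, p.Prime → Real.log p ≤ x → ¬ (p : ℤ) ∣ (H g i).1 * n + (H g i).2))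
      (fun x y m hxy h => ⟨fun p hp hpl => h.1 p hp (hpl.trans hxy),
        fun g i p hp hpl => h.2 g i p hp (hpl.trans hxy)⟩) ?_ _ ?_ hcard
    · intro X hX A'
      have h1 := hX₀ X hX s' (mem_range.2 (by omega)) hs1 A'
      refine le_trans (le_of_eq ?_) (h1.trans ?_)
      · congr!
      · apply mul_le_mul_of_nonneg_right (hCle s' hs)
        have := Real.log_natCast_nonneg X
        positivity
    · intro m hm
      unfold Rs at hm
      obtain ⟨h1, -, h3, h4, -⟩ := mem_filter.1 hm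
      rw [mem_Icc] at h1
      exact ⟨h1.1, h1.2, h3, h4⟩
  · intro m hm g hg
    unfold Rs at hm
    exact (mem_filter.1 hm).2.2.2.2 g hg

/-- a subset of a spread set with a positive proportion of the elements is spread -/
theorem Spr_sub {r s : ℕ} {c C M : ℝ} {N : ℕ} {R R' : Finset ℕ} (h : Spr r s c C N R) (hR : R' ⊆ R)
    (hM : 0 < M) (hc : (R.card : ℝ) / M ≤ R'.card) : Spr r s (c / M) C N R' := by
  refine ⟨fun m hm => h.1 m (hR hm), ?_, fun A L hL => ?_⟩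
  · refine le_trans ?_ hc
    rw [div_mul_eq_mul_div]
    exact div_le_div_of_nonneg_right h.2.1 hM.le
  · refine le_trans ?_ (h.2.2 A L hL)
    exact_mod_cast card_le_card (filter_subset_filter _ hR)

/-- **exact sets of prime forms on spread sets** -/
theorem traceS (T' : ℕ) (hT' : 1 ≤ T') : ∃ K : ℕ, 1 ≤ K ∧ ∀ {ι : Type} [Fintype ι] [DecidableEq ι]
    (a b : ι → ℕ), (∀ i, 1 ≤ a i) → (∀ i j, i ≠ j → a i * b j ≠ a j * b i) →
    ∀ A : Fin T' → Fin K → ι, Function.Injective (fun x : Fin T' × Fin K => A x.1 x.2) →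
    (∀ p : ℕ, p.Prime → ∃ n : ℕ, ∀ g i, ¬ p ∣ a (A g i) * n + b (A g i)) → ∀ s : ℕ,
    ∃ (W ν : ℕ) (c₀ C₀ : ℝ), 0 < W ∧ 0 < c₀ ∧ 0 < C₀ ∧
    ∀ᶠ N : ℕ in atTop, ∃ (S : Finset (Fin T')) (c : Fin T' → Fin K) (T : Finset ι),
      5 * T' ≤ 18 * S.card ∧ (∀ g ∈ S, A g (c g) ∈ T) ∧ (∀ i ∈ T, ∃ g k, A g k = i) ∧
      ∃ R : Finset ℕ, Spr (T' * K + 1) s c₀ C₀ N R ∧ ∀ m ∈ R, tr a b (W * m + ν) = T := by
  classical
  obtain ⟨K, hK, hcl⟩ := hitU T'
  refine ⟨K, hK, ?_⟩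
  intro ι _ _ a b ha hne A hAinj hloc' s
  set S₀ : Finset ι := (univ : Finset (Fin T' × Fin K)).image (fun x => A x.1 x.2) with hS₀
  have hAS : ∀ g i, A g i ∈ S₀ := fun g i => mem_image.2 ⟨(g, i), mem_univ _, rfl⟩
  obtain ⟨W, ν₀, hW, h1, h2⟩ := congruences a b ha hne S₀ (univ \ S₀) sdiff_disjoint
  set ν := ν₀ + W with hν
  have h1' : ∀ i ∉ S₀, ∃ p : ℕ, p.Prime ∧ p ∣ W ∧ p ∣ a i * ν + b i := by
    intro i hi
    obtain ⟨p, hp, hpW, hp2⟩ := h1 i (mem_sdiff.2 ⟨mem_univ _, hi⟩)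
    refine ⟨p, hp, hpW, ?_⟩
    rw [hν, mul_add, add_right_comm]
    exact dvd_add hp2 (hpW.mul_left _)
  have h2' : ∀ p : ℕ, p.Prime → p ∣ W → ∀ j ∈ S₀, ¬ p ∣ a j * ν + b j := by
    intro p hp hpW j hj hd
    apply h2 p hp hpW j hj
    rw [hν, mul_add, add_right_comm] at hd
    exact (Nat.dvd_add_left (hpW.mul_left (a j))).1 hd
  -- the new forms
  have hlocW : ∀ p : ℕ, p.Prime → ∃ n : ℕ, ∀ g i,
      ¬ p ∣ (a (A g i) * W) * n + (a (A g i) * ν + b (A g i)) := by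
    intro p hp
    have hval : ∀ (i : ι) (t : ℕ), (a i * W) * t + (a i * ν + b i) = a i * (W * t + ν) + b i := by
      intro i t; ring
    by_cases hpW : p ∣ W
    · refine ⟨0, fun g i => ?_⟩
      rw [mul_zero, zero_add]
      exact h2' p hp hpW _ (hAS g i)
    · obtain ⟨n, hn⟩ := hloc' p hp
      have : Fact p.Prime := ⟨hp⟩
      have hWZ : (W : ZMod p) ≠ 0 := fun h => hpW ((ZMod.natCast_eq_zero_iff _ _).1 h)
      refine ⟨(((n : ZMod p) - ν) / (W : ZMod p)).val, fun g i hd => ?_⟩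
      rw [hval] at hd
      apply hn g i
      rw [← ZMod.natCast_eq_zero_iff] at hd ⊢
      push_cast at hd ⊢
      rw [ZMod.natCast_zmod_val] at hd
      rw [← hd]
      field_simp
      ring
  obtain ⟨N', hN'⟩ : ∃ N' : ℝ, N' = (Fintype.card (Finset ι) : ℝ) := ⟨_, rfl⟩
  have hNpos : 0 < N' := by
    rw [hN']
    have : 0 < Fintype.card (Finset ι) := Fintype.card_pos
    exact_mod_cast this
  obtain ⟨c₀, C₀, hc₀, hC₀, hev⟩ := hcl hT'
    (fun g i => (((a (A g i) * W : ℕ) : ℤ), ((a (A g i) * ν + b (A g i) : ℕ) : ℤ)))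
    (by
      intro u v huv
      simp only [Prod.mk.injEq, Nat.cast_inj] at huv
      by_contra hne'
      have h3 : A u.1 u.2 ≠ A v.1 v.2 := fun h => hne' (hAinj h)
      apply hne _ _ h3
      have h4 : a (A u.1 u.2) = a (A v.1 v.2) := Nat.eq_of_mul_eq_mul_right hW huv.1
      have h5 : b (A u.1 u.2) = b (A v.1 v.2) := by
        have := huv.2
        rw [h4] at this
        exact Nat.add_left_cancel this
      rw [h4, h5])
    (by
      intro g i
      refine ⟨?_, ?_⟩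
      · show (0 : ℤ) < ((a (A g i) * W : ℕ) : ℤ)
        have h3 : 0 < a (A g i) * W := Nat.mul_pos (ha _) hW
        exact_mod_cast h3
      · show IsCoprime ((a (A g i) * W : ℕ) : ℤ) ((a (A g i) * ν + b (A g i) : ℕ) : ℤ)
        rw [Nat.isCoprime_iff_coprime]
        by_contra hcop
        obtain ⟨p, hp, h3, h4⟩ := Nat.Prime.not_coprime_iff_dvd.1 hcop
        obtain ⟨n, hn⟩ := hlocW p hp
        exact hn g i (dvd_add (h3.mul_right n) h4))
    (by
      intro p hp _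
      obtain ⟨n, hn⟩ := hlocW p hp
      refine ⟨(n : ℤ), fun g i hd => hn g i ?_⟩
      have hd' : (p : ℤ) ∣ ((a (A g i) * W : ℕ) : ℤ) * (n : ℤ) + ((a (A g i) * ν + b (A g i) : ℕ) : ℤ) := hd
      exact_mod_cast hd') s
  refine ⟨W, ν, c₀ / N', C₀, hW, by positivity, hC₀, ?_⟩
  filter_upwards [hev] with N hN
  obtain ⟨S, c, hS, Gf, hspr, hGf⟩ := hN
  have hS' : 5 * T' ≤ 18 * S.card := by
    have h3 : (5 : ℝ) * T' ≤ 18 * S.card := by linarith
    exact_mod_cast h3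
  have hval' : ∀ t ∈ Gf, (∀ i ∈ tr a b (W * t + ν), i ∈ S₀) ∧
      (∀ g ∈ S, A g (c g) ∈ tr a b (W * t + ν)) := by
    intro t ht
    have ht1 := hspr.1 t ht
    refine ⟨?_, ?_⟩
    · intro i hi
      by_contra hiS
      rw [mem_tr] at hi
      obtain ⟨p, hp, hpW, hpd⟩ := h1' i hiS
      have h3 : p ∣ a i * (W * t + ν) + b i := by
        have : a i * (W * t + ν) + b i = W * (a i * t) + (a i * ν + b i) := by ring
        rw [this]
        exact dvd_add (hpW.mul_right _) hpd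
      have h4 : p = a i * (W * t + ν) + b i := (Nat.prime_dvd_prime_iff_eq hp hi).1 h3
      have h5 : p ≤ W := Nat.le_of_dvd hW hpW
      have h6 : W + W ≤ W * t + ν := by
        have : W * 1 ≤ W * t := Nat.mul_le_mul_left _ ht1.1
        omega
      have h7 : 1 * (W * t + ν) ≤ a i * (W * t + ν) := Nat.mul_le_mul_right _ (ha i)
      omega
    · intro g hg
      have h3 : (((a (A g (c g)) * W : ℕ) : ℤ) * (t : ℤ) +
          ((a (A g (c g)) * ν + b (A g (c g)) : ℕ) : ℤ)).toNat.Prime := hGf t ht g hg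
      rw [mem_tr]
      have h4 : (((a (A g (c g)) * W : ℕ) : ℤ) * (t : ℤ) +
          ((a (A g (c g)) * ν + b (A g (c g)) : ℕ) : ℤ)).toNat =
          a (A g (c g)) * (W * t + ν) + b (A g (c g)) := by
        have : ((a (A g (c g)) * W : ℕ) : ℤ) * (t : ℤ) +
          ((a (A g (c g)) * ν + b (A g (c g)) : ℕ) : ℤ) =
          ((a (A g (c g)) * (W * t + ν) + b (A g (c g)) : ℕ) : ℤ) := by push_cast; ring
        rw [this, Int.toNat_natCast]
      rwa [h4] at h3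
  -- pigeonhole
  obtain ⟨T, hT, hT2⟩ : ∃ T ∈ (univ : Finset (Finset ι)), (Gf.card : ℝ) / N' ≤
      ((Gf.filter (fun t => tr a b (W * t + ν) = T)).card : ℝ) := by
    by_contra hcon
    push Not at hcon
    have h3 : (Gf.card : ℝ) = ∑ T ∈ (univ : Finset (Finset ι)),
        ((Gf.filter (fun t => tr a b (W * t + ν) = T)).card : ℝ) := by
      rw [← Nat.cast_sum]
      congr 1
      exact card_eq_sum_card_fiberwise (fun t _ => mem_univ _)
    have h4 : ∑ T ∈ (univ : Finset (Finset ι)),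
        ((Gf.filter (fun t => tr a b (W * t + ν) = T)).card : ℝ) <
        ∑ T ∈ (univ : Finset (Finset ι)), (Gf.card : ℝ) / N' :=
      sum_lt_sum_of_nonempty univ_nonempty hcon
    rw [sum_const, card_univ, nsmul_eq_mul, ← hN', mul_div_cancel₀ _ hNpos.ne'] at h4
    linarith
  have hspr' := Spr_sub hspr (filter_subset (fun t => tr a b (W * t + ν) = T) Gf) hNpos hT2
  by_cases hNe : (Gf.filter (fun t => tr a b (W * t + ν) = T)).Nonempty
  · obtain ⟨t, ht⟩ := hNe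
    obtain ⟨ht1, ht2⟩ := mem_filter.1 ht
    obtain ⟨h3, h4⟩ := hval' t ht1
    rw [ht2] at h3 h4
    refine ⟨S, c, T, hS', h4, ?_, _, hspr', fun m hm => (mem_filter.1 hm).2⟩
    intro i hi
    obtain ⟨y, _, hy⟩ := mem_image.1 (h3 i hi)
    exact ⟨y.1, y.2, hy⟩
  · rw [not_nonempty_iff_eq_empty] at hNe
    refine ⟨S, c, S.image (fun g => A g (c g)), hS', fun g hg => mem_image_of_mem _ hg, ?_,
      _, hspr', fun m hm => ?_⟩
    · intro i hi
      obtain ⟨g, -, rfl⟩ := mem_image.1 hi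
      exact ⟨_, _, rfl⟩
    · rw [hNe] at hm
      exact absurd hm (notMem_empty m)

end Pool.Agent.HP27.S3
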