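import Mathlib
import Pool.Agent.HP27.S3.Spread
import Pool.Agent.R493.CG.Win
import Pool.Agent.R493.ST.Str
/-!
# Among four classes of numbers there are two with an exact gap between consecutive primes, on spread sets

The theorem `Pool.Agent.H40E9.SG.four` with spread sets.
-/

set_option autoImplicit false

namespace Pool.Agent.HP27.S3

open Finset Filter
open Pool.Agent.R493.ST (avoid)
open Pool.Agent.R493.CG (adjacent)
open Pool.Agent.N694.SP (Spr)
open Pool.Agent.TH779.Shat (tr mem_tr)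

/-- `p` and `p + d` are primes, and there are no other primes between `p - P` and `p + d + P` -/
def Iso (P d p : ℕ) : Prop :=
  p.Prime ∧ (p + d).Prime ∧ ∀ m : ℕ, m.Prime → p < m + P → m < p + d + P → m = p ∨ m = p + d

theorem four_spread : ∃ K : ℕ, 1 ≤ K ∧ ∀ P : ℕ, 0 < P → 6 ∣ P →
    ∀ A : Fin 4 → Fin K → ℕ, (∀ g, Function.Injective (A g)) →
    (∀ g g', g < g' → ∀ k k', A g k < A g' k') →
    (∀ g k k', A g k ≡ A g k' [MOD (4 * K).factorial]) → ∀ s : ℕ,
    ∃ (W ν : ℕ) (c₀ C₀ : ℝ), 0 < W ∧ 0 < c₀ ∧ 0 < C₀ ∧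
    ∀ᶠ N : ℕ in atTop, ∃ g g', g < g' ∧ ∃ k k', ∃ R : Finset ℕ, Spr (4 * K + 1) s c₀ C₀ N R ∧
      ∀ m ∈ R, Iso P (P * (A g' k' - A g k)) (W * m + ν + P * A g k) := by
  classical
  obtain ⟨K, hK, htr⟩ := traceS 4 (by norm_num)
  refine ⟨K, hK, ?_⟩
  intro P hP hP₀ A hAinj hAlt hcol s
  have k0 : Fin K := ⟨0, hK⟩
  set Y : ℕ := ∑ g, ∑ k, A g k with hY
  have hAY : ∀ g k, A g k ≤ Y := by
    intro g k
    rw [hY]
    calc A g k ≤ ∑ k, A g k := single_le_sum (f := fun k => A g k) (fun _ _ => Nat.zero_le _) (mem_univ k)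
      _ ≤ _ := single_le_sum (f := fun g => ∑ k, A g k) (fun _ _ => Nat.zero_le _) (mem_univ g)
  set N : ℕ := P * Y + 2 * P with hN
  have hidx : ∀ g k, P + P * A g k < N := by
    intro g k
    have h1 := Nat.mul_le_mul_left P (hAY g k)
    omega
  set idx : Fin 4 → Fin K → Fin N := fun g k => ⟨P + P * A g k, hidx g k⟩ with hidxdef
  have hidxinj : Function.Injective (fun y : Fin 4 × Fin K => idx y.1 y.2) := by
    rintro ⟨g, k⟩ ⟨g', k'⟩ h
    have h1 : P + P * A g k = P + P * A g' k' := congrArg Fin.val h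
    have h2 : A g k = A g' k' := Nat.eq_of_mul_eq_mul_left hP (by omega)
    rcases lt_trichotomy g g' with h3 | h3 | h3
    · have := hAlt g g' h3 k k'
      omega
    · subst h3
      rw [hAinj g h2]
    · have := hAlt g' g h3 k' k
      omega
  have hloc : ∀ p : ℕ, p.Prime → ∃ n : ℕ, ∀ g k, ¬ p ∣ 1 * n + (idx g k : ℕ) := by
    intro p hp
    have hform : ∀ (n : ℕ) g k, 1 * n + (idx g k : ℕ) = n + P * (1 + A g k) := by
      intro n g k
      show 1 * n + (P + P * A g k) = _
      ring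
    have hp1 : ¬ p ∣ 1 := by
      intro h
      exact hp.one_lt.ne' (Nat.dvd_one.1 h)
    by_cases hpP : p ∣ P
    · refine ⟨1, fun g k hd => ?_⟩
      rw [hform] at hd
      exact hp1 ((Nat.dvd_add_left (hpP.mul_right _)).1 hd)
    · have hp5 : 5 ≤ p := by
        have h2 := hp.two_le
        by_contra hlt
        have h3 : p = 2 ∨ p = 3 := by
          have h4 : p ≠ 4 := by rintro rfl; exact absurd hp (by decide)
          omega
        rcases h3 with rfl | rfl
        · exact hpP (dvd_trans (by norm_num) hP₀)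
        · exact hpP (dvd_trans (by norm_num) hP₀)
      by_cases hpK : 4 * K < p
      · obtain ⟨n, hn⟩ := avoid hp hp1 ((univ : Finset (Fin 4 × Fin K)).image
          (fun y => (idx y.1 y.2 : ℕ))) (fun i => i) (by
            refine lt_of_le_of_lt card_image_le ?_
            rw [card_univ, Fintype.card_prod, Fintype.card_fin, Fintype.card_fin]
            exact hpK)
        exact ⟨n, fun g k hd => hn _ (mem_image.2 ⟨(g, k), mem_univ _, rfl⟩) hd⟩
      · have hpf : p ∣ (4 * K).factorial := (hp.dvd_factorial).2 (by omega)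
        obtain ⟨n, hn⟩ := avoid hp hp1 ((univ : Finset (Fin 4)).image
          (fun g => (idx g k0 : ℕ))) (fun i => i) (by
            refine lt_of_le_of_lt card_image_le ?_
            rw [card_univ, Fintype.card_fin]
            omega)
        refine ⟨n, fun g k hd => ?_⟩
        apply hn _ (mem_image.2 ⟨g, mem_univ _, rfl⟩)
        have h2 : A g k ≡ A g k0 [MOD p] := (hcol g k k0).of_dvd hpf
        have h3 : 1 * n + (P + P * A g k) ≡ 1 * n + (P + P * A g k0) [MOD p] :=
          Nat.ModEq.add_left _ (Nat.ModEq.add_left _ (h2.mul_left _))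
        exact (Nat.ModEq.dvd_iff h3 dvd_rfl).1 hd
  obtain ⟨W, ν, c₀, C₀, hW, hc₀, hC₀, hev⟩ := htr (ι := Fin N) (fun _ => 1) (fun i => (i : ℕ))
    (fun _ => le_rfl) (by
      intro i j hij h
      apply hij
      apply Fin.ext
      omega) idx hidxinj hloc s
  refine ⟨W, ν + P, c₀, C₀, hW, hc₀, hC₀, ?_⟩
  filter_upwards [hev] with X hX
  obtain ⟨S, c, T, hS, hST, hTA, R, hR, hcnt⟩ := hX
  have hS2 : 1 < S.card := by omega
  obtain ⟨g₁, hg₁, g₂, hg₂, hne⟩ := Finset.one_lt_card.1 hS2
  wlog hlt : g₁ < g₂ generalizing g₁ g₂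
  · exact this g₂ hg₂ g₁ hg₁ hne.symm (lt_of_le_of_ne (not_lt.1 hlt) hne.symm)
  set T' : Finset ℕ := T.image (fun i : Fin N => (i : ℕ)) with hT'
  have hT'A : ∀ w ∈ T', ∃ g k, w = P + P * A g k := by
    intro w hw
    obtain ⟨i, hi, rfl⟩ := mem_image.1 hw
    obtain ⟨g, k, rfl⟩ := hTA i hi
    exact ⟨g, k, rfl⟩
  have hvalinj : ∀ g k g' k', P + P * A g k = P + P * A g' k' → g = g' := by
    intro g k g' k' h
    have h1 := @hidxinj (g, k) (g', k') (Fin.ext h)
    exact congrArg Prod.fst h1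
  obtain ⟨u, hu, v, hv, huv, hfuv, hadj⟩ := adjacent T'
    (fun w => (univ : Finset (Fin 4)).filter (fun g => ∃ k, w = P + P * A g k))
    (u := P + P * A g₁ (c g₁)) (v := P + P * A g₂ (c g₂))
    (mem_image.2 ⟨_, hST g₁ hg₁, rfl⟩) (mem_image.2 ⟨_, hST g₂ hg₂, rfl⟩)
    (by
      have h1 := hAlt g₁ g₂ hlt (c g₁) (c g₂)
      have h2 := Nat.mul_lt_mul_of_pos_left h1 hP
      omega)
    (by
      intro h
      have h1 : g₁ ∈ (univ : Finset (Fin 4)).filter (fun g => ∃ k, P + P * A g₁ (c g₁) = P + P * A g k) :=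
        mem_filter.2 ⟨mem_univ _, c g₁, rfl⟩
      rw [h] at h1
      obtain ⟨k, hk⟩ := (mem_filter.1 h1).2
      exact hne (hvalinj _ _ _ _ hk).symm)
  obtain ⟨g, k, rfl⟩ := hT'A u hu
  obtain ⟨g', k', rfl⟩ := hT'A v hv
  have hAA : A g k < A g' k' := by
    have h1 : P * A g k < P * A g' k' := by omega
    exact lt_of_mul_lt_mul_left h1 (Nat.zero_le _)
  have hgg : g < g' := by
    rcases lt_trichotomy g g' with h3 | h3 | h3
    · exact h3
    · exfalso
      apply hfuv
      subst h3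
      ext y
      simp only [mem_filter, mem_univ, true_and]
      constructor
      · rintro ⟨k₁, h1⟩
        have := hvalinj _ _ _ _ h1
        subst this
        exact ⟨k', rfl⟩
      · rintro ⟨k₁, h1⟩
        have := hvalinj _ _ _ _ h1
        subst this
        exact ⟨k, rfl⟩
    · have := hAlt g' g h3 k' k
      omega
  refine ⟨g, g', hgg, k, k', R, hR, fun n hn => ?_⟩
  have hn2 := hcnt n hn
  have hprime : ∀ i : ℕ, i < N → ((W * n + ν + i).Prime ↔ i ∈ T') := by
    intro i hi
    have h1 : (⟨i, hi⟩ : Fin N) ∈ tr (fun _ : Fin N => 1) (fun i => (i : ℕ)) (W * n + ν) ↔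
        (1 * (W * n + ν) + i).Prime := mem_tr _ _ _ _
    rw [one_mul] at h1
    rw [← h1, hn2]
    constructor
    · intro h2
      exact mem_image.2 ⟨_, h2, rfl⟩
    · intro h2
      obtain ⟨j, hj, hji⟩ := mem_image.1 h2
      have : j = ⟨i, hi⟩ := Fin.ext hji
      rwa [← this]
  have e1 : W * n + (ν + P) + P * A g k = W * n + ν + (P + P * A g k) := by omega
  have hd : P + P * A g k + P * (A g' k' - A g k) = P + P * A g' k' := by
    rw [Nat.mul_sub]
    have : P * A g k < P * A g' k' := Nat.mul_lt_mul_of_pos_left hAA hP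
    omega
  have hpd : W * n + ν + (P + P * A g k) + P * (A g' k' - A g k) = W * n + ν + (P + P * A g' k') := by
    omega
  rw [e1]
  refine ⟨(hprime _ (hidx g k)).2 hu, ?_, ?_⟩
  · rw [hpd]
    exact (hprime _ (hidx g' k')).2 hv
  · intro m hm hm1 hm2
    rw [hpd] at hm2 ⊢
    obtain ⟨i, hi⟩ : ∃ i, m = W * n + ν + i :=
      Nat.exists_eq_add_of_le (by omega : W * n + ν ≤ m)
    have hiN : i < N := by
      have := Nat.mul_le_mul_left P (hAY g' k')
      omega
    rw [hi] at hm
    have hiT := (hprime i hiN).1 hm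
    obtain ⟨g₃, k₃, hi3⟩ := hT'A i hiT
    rcases hadj i hiT with h | h
    · left
      have h4 : A g₃ k₃ = A g k := by
        have h5 : P * A g₃ k₃ ≤ P * A g k := by omega
        have h6 : P * A g k < P * A g₃ k₃ + P := by omega
        have h7 := Nat.le_of_mul_le_mul_left h5 hP
        have h8 : P * A g k < P * (A g₃ k₃ + 1) := by rw [mul_add, mul_one]; exact h6
        have h9 := lt_of_mul_lt_mul_left h8 (Nat.zero_le _)
        omega
      rw [hi, hi3, h4]
    · right
      have h4 : A g₃ k₃ = A g' k' := by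
        have h5 : P * A g' k' ≤ P * A g₃ k₃ := by omega
        have h6 : P * A g₃ k₃ < P * A g' k' + P := by omega
        have h7 := Nat.le_of_mul_le_mul_left h5 hP
        have h8 : P * A g₃ k₃ < P * (A g' k' + 1) := by rw [mul_add, mul_one]; exact h6
        have h9 := lt_of_mul_lt_mul_left h8 (Nat.zero_le _)
        omega
      rw [hi, hi3, h4]

end Pool.Agent.HP27.S3
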