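import Mathlib
import Pool.Agent.H40E9.SG.Lim
/-!
# Sums of exactly three elements of a set with the four classes property

`Four K L S`: among four classes of `K` numbers, ordered and congruent modulo `L` in each class, there are two numbers of
different classes whose difference belongs to `S`. Every large multiple of six is then a sum of three elements of `S`.
-/

set_option autoImplicit false

namespace Pool.Agent.HP27.S3

open Finset Filter
open Pool.Agent.H40E9.CM (ultra_seq ultra_color)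
open Pool.Agent.H40E9.SG (FourClasses GG PP star)

/-- the four classes property of one set -/
def Four (K L : ℕ) (S : Set ℕ) : Prop :=
  ∀ A : Fin 4 → Fin K → ℕ, (∀ g, Function.Injective (A g)) →
    (∀ g g', g < g' → ∀ k k', A g k < A g' k') → (∀ g k k', A g k ≡ A g k' [MOD L]) →
    ∃ g g', g < g' ∧ ∃ k k', A g' k' - A g k ∈ S

theorem four_GG {K L : ℕ} {D : ℕ → ℕ → Prop} (h4 : FourClasses K L D) (V : Ultrafilter ℕ)
    (hV : (V : Filter ℕ) ≤ atTop) : Four K L (GG D V) := by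
  intro A h1 h2 h3
  have hev := hV (h4 A h1 h2 h3)
  have hev2 : ∀ᶠ t in (V : Filter ℕ), ∃ τ : (Fin 4 × Fin 4) × (Fin K × Fin K), τ.1.1 < τ.1.2 ∧
      D t (A τ.1.2 τ.2.2 - A τ.1.1 τ.2.1) := by
    filter_upwards [hev] with t ht
    obtain ⟨g, g', hg, k, k', hD⟩ := ht
    exact ⟨((g, g'), (k, k')), hg, hD⟩
  obtain ⟨τ, hτ⟩ : ∃ τ : (Fin 4 × Fin 4) × (Fin K × Fin K), ∀ᶠ t in (V : Filter ℕ), τ.1.1 < τ.1.2 ∧
      D t (A τ.1.2 τ.2.2 - A τ.1.1 τ.2.1) := by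
    by_contra hno
    rw [not_exists] at hno
    have h1 : ∀ᶠ t in (V : Filter ℕ), ∀ τ : (Fin 4 × Fin 4) × (Fin K × Fin K), ¬ (τ.1.1 < τ.1.2 ∧
      D t (A τ.1.2 τ.2.2 - A τ.1.1 τ.2.1)) := by
      rw [eventually_all]
      intro τ
      exact Ultrafilter.eventually_not.2 (hno τ)
    obtain ⟨t, ⟨τ, h2⟩, h3⟩ := (hev2.and h1).exists
    exact h3 τ h2
  obtain ⟨⟨a, b⟩, k, l⟩ := τ
  obtain ⟨t, hab, -⟩ := hτ.exists
  exact ⟨a, b, hab, k, l, hτ.mono fun t ht => ht.2⟩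

/-- four classes of integers without differences in `S` -/
theorem four_int {K L : ℕ} {S : Set ℕ} (h4 : Four K L S) (c0 c1 c2 c3 : Fin K → ℤ)
    (p0 : ∀ k, 0 ≤ c0 k)
    (i0 : Function.Injective c0) (i1 : Function.Injective c1) (i2 : Function.Injective c2) (i3 : Function.Injective c3)
    (m0 : ∀ k k', (L : ℤ) ∣ c0 k - c0 k') (m1 : ∀ k k', (L : ℤ) ∣ c1 k - c1 k')
    (m2 : ∀ k k', (L : ℤ) ∣ c2 k - c2 k') (m3 : ∀ k k', (L : ℤ) ∣ c3 k - c3 k')
    (n01 : ∀ k k', c0 k < c1 k' ∧ ∀ d ∈ S, (d : ℤ) ≠ c1 k' - c0 k)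
    (n02 : ∀ k k', c0 k < c2 k' ∧ ∀ d ∈ S, (d : ℤ) ≠ c2 k' - c0 k)
    (n03 : ∀ k k', c0 k < c3 k' ∧ ∀ d ∈ S, (d : ℤ) ≠ c3 k' - c0 k)
    (n12 : ∀ k k', c1 k < c2 k' ∧ ∀ d ∈ S, (d : ℤ) ≠ c2 k' - c1 k)
    (n13 : ∀ k k', c1 k < c3 k' ∧ ∀ d ∈ S, (d : ℤ) ≠ c3 k' - c1 k)
    (n23 : ∀ k k', c2 k < c3 k' ∧ ∀ d ∈ S, (d : ℤ) ≠ c3 k' - c2 k) : False := by
  obtain ⟨c, hc⟩ : ∃ c : Fin 4 → Fin K → ℤ, c = ![c0, c1, c2, c3] := ⟨_, rfl⟩
  have hi : ∀ g, Function.Injective (c g) := by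
    intro g
    rw [hc]
    fin_cases g
    · exact i0
    · exact i1
    · exact i2
    · exact i3
  have hm : ∀ g k k', (L : ℤ) ∣ c g k - c g k' := by
    intro g
    rw [hc]
    fin_cases g
    · exact m0
    · exact m1
    · exact m2
    · exact m3
  have hn : ∀ g g' : Fin 4, g < g' → ∀ k k', c g k < c g' k' ∧ ∀ d ∈ S, (d : ℤ) ≠ c g' k' - c g k := by
    intro g g' hg
    rw [hc]
    fin_cases g <;> fin_cases g' <;> first | exact absurd hg (by decide) | skip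
    · exact n01
    · exact n02
    · exact n03
    · exact n12
    · exact n13
    · exact n23
  have hp : ∀ g k, 0 ≤ c g k := by
    intro g k
    rcases Fin.eq_zero_or_eq_succ g with rfl | ⟨g', rfl⟩
    · rw [hc]
      exact p0 k
    · have h1 := (hn 0 g'.succ (Fin.succ_pos g') k k).1
      have h2 : 0 ≤ c 0 k := by
        rw [hc]
        exact p0 k
      omega
  obtain ⟨g, g', hg, k, k', hS⟩ := h4 (fun g k => (c g k).toNat)
    (by
      intro g k k' h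
      have h1 := Int.toNat_of_nonneg (hp g k)
      have h2 := Int.toNat_of_nonneg (hp g k')
      apply hi g
      have h3 : (c g k).toNat = (c g k').toNat := h
      omega)
    (by
      intro g g' hg k k'
      have h1 := Int.toNat_of_nonneg (hp g k)
      have h2 := Int.toNat_of_nonneg (hp g' k')
      have h3 := (hn g g' hg k k').1
      show (c g k).toNat < (c g' k').toNat
      omega)
    (by
      intro g k k'
      have h1 := Int.toNat_of_nonneg (hp g k)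
      have h2 := Int.toNat_of_nonneg (hp g k')
      rw [← Int.natCast_modEq_iff]
      show (((c g k).toNat : ℕ) : ℤ) ≡ (((c g k').toNat : ℕ) : ℤ) [ZMOD L]
      rw [h1, h2]
      exact (Int.modEq_iff_dvd.2 (hm g k' k)))
  have h1 := Int.toNat_of_nonneg (hp g k)
  have h2 := Int.toNat_of_nonneg (hp g' k')
  have h3 := hn g g' hg k k'
  apply h3.2 _ hS
  have h4 := h3.1
  show (((c g' k').toNat - (c g k).toNat : ℕ) : ℤ) = _
  omega

/-- the limit set -/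
def Lim (S : Set ℕ) (U : Ultrafilter ℕ) : Set ℤ :=
  {z | ∀ᶠ i : ℕ in (U : Filter ℕ), ∀ᶠ j : ℕ in (U : Filter ℕ), ∃ k ∈ S, (k : ℤ) = j - i + z}

theorem star_Lim {K L : ℕ} (hL : 0 < L) {S : Set ℕ} (h4 : Four K L S) (U : Ultrafilter ℕ)
    (hU : (U : Filter ℕ) ≤ atTop) : Pool.Agent.H40E9.CM.Star (Lim S U) := by
  have h1 : FourClasses K L (fun _ k => k ∈ S) := by
    intro A a1 a2 a3
    exact Eventually.of_forall fun _ => h4 A a1 a2 a3
  have h2 := star hL h1 U U hU hU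
  have h3 : GG (fun _ k => k ∈ S) U = S := by
    ext k
    unfold GG
    rw [Set.mem_ofPred_eq]
    exact Filter.eventually_const
  unfold PP at h2
  rw [h3] at h2
  exact h2

/-- `h` is not a sum of three elements of `S` which are larger than `G` -/
def Bad (S : Set ℕ) (G h : ℕ) : Prop := ∀ a ∈ S, ∀ b ∈ S, ∀ c ∈ S, G < a → G < b → G < c → a + b + c ≠ h

theorem sub_mem {K L : ℕ} (hL : 0 < L) {S : Set ℕ} (h4 : Four K L S) {G : ℕ}
    (hbad : ∀ N : ℕ, ∃ h, N ≤ h ∧ Bad S G h) (U : Ultrafilter ℕ) (hU : (U : Filter ℕ) ≤ atTop)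
    {u v : ℤ} (hu : u ∈ Lim S U) (hv : v ∈ Lim S U) : u - v ∈ Lim S U := by
  by_contra hcon
  have : NeZero L := ⟨hL.ne'⟩
  obtain ⟨c, hc⟩ := ultra_color U (fun i => ((i : ℕ) : ZMod L))
  obtain ⟨M, hM⟩ : ∃ M : ℕ, M = 2 * (u.natAbs + v.natAbs) + G + 1 := ⟨_, rfl⟩
  have hR : ∀ᶠ i : ℕ in (U : Filter ℕ), ∀ᶠ j : ℕ in (U : Filter ℕ), i + M < j ∧
      (∃ k ∈ S, (k : ℤ) = j - i + u) ∧ (∃ k ∈ S, (k : ℤ) = j - i + v) ∧
      ¬ ∃ k ∈ S, (k : ℤ) = j - i + (u - v) := by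
    have h1 : ∀ᶠ i : ℕ in (U : Filter ℕ), ∀ᶠ j : ℕ in (U : Filter ℕ),
        ¬ ∃ k ∈ S, (k : ℤ) = j - i + (u - v) := by
      unfold Lim at hcon
      rw [Set.mem_ofPred_eq, ← Ultrafilter.eventually_not] at hcon
      filter_upwards [hcon] with i hi
      rwa [← Ultrafilter.eventually_not] at hi
    have hu' : ∀ᶠ i : ℕ in (U : Filter ℕ), ∀ᶠ j : ℕ in (U : Filter ℕ), ∃ k ∈ S, (k : ℤ) = j - i + u := hu
    have hv' : ∀ᶠ i : ℕ in (U : Filter ℕ), ∀ᶠ j : ℕ in (U : Filter ℕ), ∃ k ∈ S, (k : ℤ) = j - i + v := hv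
    filter_upwards [h1, hu', hv'] with i a b c
    exact ((eventually_gt_atTop (i + M)).filter_mono hU).and (b.and (c.and a))
  obtain ⟨s, hs1, hs2, hs3⟩ := ultra_seq U hU (fun i => ((i : ℕ) : ZMod L) = c) _ hc hR
  have hdvd : ∀ i j : ℕ, (L : ℤ) ∣ (s i : ℤ) - s j := by
    intro i j
    rw [← ZMod.intCast_eq_intCast_iff_dvd_sub]
    push_cast
    rw [hs2, hs2]
  have hmono : ∀ i j : ℕ, i ≤ j → s i ≤ s j := by
    intro i j hij
    rcases Nat.lt_or_eq_of_le hij with h | h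
    · exact (hs1 i j h).le
    · rw [h]
  have hinj : ∀ i j : ℕ, s i = s j → i = j := by
    intro i j h
    rcases lt_trichotomy i j with h1 | h1 | h1
    · have := hs1 i j h1
      omega
    · exact h1
    · have := hs1 j i h1
      omega
  obtain ⟨H, hH1, hH2⟩ := hbad (4 * s (4 * K + 1) + 8 * M + 8)
  -- indices
  obtain ⟨t, ht⟩ : ∃ t : ℕ → Fin K → ℕ, t = fun (g : ℕ) (k : Fin K) => 1 + g * K + (k : ℕ) := ⟨_, rfl⟩
  have ht0 : ∀ g k, 0 < t g k := by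
    intro g k
    rw [ht]
    show 0 < 1 + g * K + (k : ℕ)
    omega
  have htlt : ∀ g g' : ℕ, g < g' → ∀ k k', t g k < t g' k' := by
    intro g g' hg k k'
    rw [ht]
    have h2 : (g + 1) * K ≤ g' * K := Nat.mul_le_mul_right _ hg
    have h3 := k.2
    have h5 : (g + 1) * K = g * K + K := by ring
    show 1 + g * K + (k : ℕ) < 1 + g' * K + (k' : ℕ)
    omega
  have htle : ∀ g : ℕ, g < 4 → ∀ k, s (t g k) ≤ s (4 * K + 1) := by
    intro g hg k
    apply hmono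
    rw [ht]
    have h2 : (g + 1) * K ≤ 4 * K := Nat.mul_le_mul_right _ hg
    have h3 := k.2
    have h5 : (g + 1) * K = g * K + K := by ring
    show 1 + g * K + (k : ℕ) ≤ 4 * K + 1
    omega
  have htinj : ∀ g k k', s (t g k) = s (t g k') → k = k' := by
    intro g k k' h
    have h1 := hinj _ _ h
    rw [ht] at h1
    have h2 : 1 + g * K + (k : ℕ) = 1 + g * K + (k' : ℕ) := h1
    apply Fin.ext
    omega
  have hU' : ∀ g k, ∃ d ∈ S, (d : ℤ) = s (t g k) - s 0 + u := fun g k => (hs3 0 _ (ht0 g k)).2.1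
  have hV' : ∀ g k, ∃ d ∈ S, (d : ℤ) = s (t g k) - s 0 + v := fun g k => (hs3 0 _ (ht0 g k)).2.2.1
  have hgap : ∀ g k, s 0 + M < s (t g k) := fun g k => (hs3 0 _ (ht0 g k)).1
  refine four_int h4 (fun k => (s (t 0 k) : ℤ) + M) (fun k => (s (t 1 k) : ℤ) + M + (u - v))
    (fun k => (M : ℤ) + H - 2 * v + 2 * s 0 + (v - u) - s (t 3 k)) (fun k => (M : ℤ) + H - 2 * v + 2 * s 0 - s (t 2 k))
    ?_ ?_ ?_ ?_ ?_ ?_ ?_ ?_ ?_ ?_ ?_ ?_ ?_ ?_ ?_
  · intro k
    positivity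
  · intro k k' h
    have h' : (s (t 0 k) : ℤ) + M = (s (t 0 k') : ℤ) + M := h
    exact htinj 0 k k' (by omega)
  · intro k k' h
    have h' : (s (t 1 k) : ℤ) + M + (u - v) = (s (t 1 k') : ℤ) + M + (u - v) := h
    exact htinj 1 k k' (by omega)
  · intro k k' h
    have h' : (M : ℤ) + H - 2 * v + 2 * s 0 + (v - u) - s (t 3 k) =
      (M : ℤ) + H - 2 * v + 2 * s 0 + (v - u) - s (t 3 k') := h
    exact htinj 3 k k' (by omega)
  · intro k k' h
    have h' : (M : ℤ) + H - 2 * v + 2 * s 0 - s (t 2 k) = (M : ℤ) + H - 2 * v + 2 * s 0 - s (t 2 k') := h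
    exact htinj 2 k k' (by omega)
  · intro k k'
    have := hdvd (t 0 k) (t 0 k')
    have e : ((s (t 0 k) : ℤ) + M) - ((s (t 0 k') : ℤ) + M) = (s (t 0 k) : ℤ) - s (t 0 k') := by ring
    show (L : ℤ) ∣ ((s (t 0 k) : ℤ) + M) - ((s (t 0 k') : ℤ) + M)
    rwa [e]
  · intro k k'
    have := hdvd (t 1 k) (t 1 k')
    have e : ((s (t 1 k) : ℤ) + M + (u - v)) - ((s (t 1 k') : ℤ) + M + (u - v)) = (s (t 1 k) : ℤ) - s (t 1 k') := by ring
    show (L : ℤ) ∣ ((s (t 1 k) : ℤ) + M + (u - v)) - ((s (t 1 k') : ℤ) + M + (u - v))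
    rwa [e]
  · intro k k'
    have := hdvd (t 3 k') (t 3 k)
    have e : ((M : ℤ) + H - 2 * v + 2 * s 0 + (v - u) - s (t 3 k)) - ((M : ℤ) + H - 2 * v + 2 * s 0 + (v - u) - s (t 3 k')) =
      (s (t 3 k') : ℤ) - s (t 3 k) := by ring
    show (L : ℤ) ∣ ((M : ℤ) + H - 2 * v + 2 * s 0 + (v - u) - s (t 3 k)) -
      ((M : ℤ) + H - 2 * v + 2 * s 0 + (v - u) - s (t 3 k'))
    rwa [e]
  · intro k k'
    have := hdvd (t 2 k') (t 2 k)
    have e : ((M : ℤ) + H - 2 * v + 2 * s 0 - s (t 2 k)) - ((M : ℤ) + H - 2 * v + 2 * s 0 - s (t 2 k')) =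
      (s (t 2 k') : ℤ) - s (t 2 k) := by ring
    show (L : ℤ) ∣ ((M : ℤ) + H - 2 * v + 2 * s 0 - s (t 2 k)) - ((M : ℤ) + H - 2 * v + 2 * s 0 - s (t 2 k'))
    rwa [e]
  · -- 01
    intro k k'
    have h1 := hs3 _ _ (htlt 0 1 (by norm_num) k k')
    refine ⟨?_, fun d hd he => h1.2.2.2 ⟨d, hd, ?_⟩⟩
    · have := h1.1
      show (s (t 0 k) : ℤ) + M < (s (t 1 k') : ℤ) + M + (u - v)
      omega
    · rw [he]
      show (s (t 1 k') : ℤ) + M + (u - v) - ((s (t 0 k) : ℤ) + M) = _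
      ring
  · -- 02
    intro k k'
    obtain ⟨a, ha, ea⟩ := hU' 3 k'
    obtain ⟨b, hb, eb⟩ := hV' 0 k
    have g1 := hgap 3 k'
    have g2 := hgap 0 k
    have g3 := htle 3 (by norm_num) k'
    have g4 := htle 0 (by norm_num) k
    refine ⟨?_, fun d hd he => ?_⟩
    · show (s (t 0 k) : ℤ) + M < (M : ℤ) + H - 2 * v + 2 * s 0 + (v - u) - s (t 3 k')
      omega
    · have he' : (d : ℤ) = (M : ℤ) + H - 2 * v + 2 * s 0 + (v - u) - s (t 3 k') - ((s (t 0 k) : ℤ) + M) := he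
      exact hH2 a ha b hb d hd (by omega) (by omega) (by omega) (by omega)
  · -- 03
    intro k k'
    obtain ⟨a, ha, ea⟩ := hV' 2 k'
    obtain ⟨b, hb, eb⟩ := hV' 0 k
    have g1 := hgap 2 k'
    have g2 := hgap 0 k
    have g3 := htle 2 (by norm_num) k'
    have g4 := htle 0 (by norm_num) k
    refine ⟨?_, fun d hd he => ?_⟩
    · show (s (t 0 k) : ℤ) + M < (M : ℤ) + H - 2 * v + 2 * s 0 - s (t 2 k')
      omega
    · have he' : (d : ℤ) = (M : ℤ) + H - 2 * v + 2 * s 0 - s (t 2 k') - ((s (t 0 k) : ℤ) + M) := he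
      exact hH2 a ha b hb d hd (by omega) (by omega) (by omega) (by omega)
  · -- 12
    intro k k'
    obtain ⟨a, ha, ea⟩ := hU' 3 k'
    obtain ⟨b, hb, eb⟩ := hU' 1 k
    have g1 := hgap 3 k'
    have g2 := hgap 1 k
    have g3 := htle 3 (by norm_num) k'
    have g4 := htle 1 (by norm_num) k
    refine ⟨?_, fun d hd he => ?_⟩
    · show (s (t 1 k) : ℤ) + M + (u - v) < (M : ℤ) + H - 2 * v + 2 * s 0 + (v - u) - s (t 3 k')
      omega
    · have he' : (d : ℤ) = (M : ℤ) + H - 2 * v + 2 * s 0 + (v - u) - s (t 3 k') - ((s (t 1 k) : ℤ) + M + (u - v)) := he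
      exact hH2 a ha b hb d hd (by omega) (by omega) (by omega) (by omega)
  · -- 13
    intro k k'
    obtain ⟨a, ha, ea⟩ := hV' 2 k'
    obtain ⟨b, hb, eb⟩ := hU' 1 k
    have g1 := hgap 2 k'
    have g2 := hgap 1 k
    have g3 := htle 2 (by norm_num) k'
    have g4 := htle 1 (by norm_num) k
    refine ⟨?_, fun d hd he => ?_⟩
    · show (s (t 1 k) : ℤ) + M + (u - v) < (M : ℤ) + H - 2 * v + 2 * s 0 - s (t 2 k')
      omega
    · have he' : (d : ℤ) = (M : ℤ) + H - 2 * v + 2 * s 0 - s (t 2 k') - ((s (t 1 k) : ℤ) + M + (u - v)) := he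
      exact hH2 a ha b hb d hd (by omega) (by omega) (by omega) (by omega)
  · -- 23
    intro k k'
    have h1 := hs3 _ _ (htlt 2 3 (by norm_num) k' k)
    refine ⟨?_, fun d hd he => h1.2.2.2 ⟨d, hd, ?_⟩⟩
    · have := h1.1
      show (M : ℤ) + H - 2 * v + 2 * s 0 + (v - u) - s (t 3 k) < (M : ℤ) + H - 2 * v + 2 * s 0 - s (t 2 k')
      omega
    · rw [he]
      show (M : ℤ) + H - 2 * v + 2 * s 0 - s (t 2 k') - ((M : ℤ) + H - 2 * v + 2 * s 0 + (v - u) - s (t 3 k)) = _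
      ring

end Pool.Agent.HP27.S3
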