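import Mathlib
import Pool.Agent.HP27.S3.Sum
/-!
# Sums of exactly three elements, second part
-/

set_option autoImplicit false

namespace Pool.Agent.HP27.S3

open Finset Filter
open Pool.Agent.H40E9.CM (ultra_seq ultra_color)
open Pool.Agent.H40E9.SG (FourClasses GG)

theorem no_bad {K L : ℕ} (hL : 0 < L) {S : Set ℕ} (h4 : Four K L S) {G : ℕ}
    (hbad : ∀ N : ℕ, ∃ h, N ≤ h ∧ 6 ∣ h ∧ Bad S G h) (U : Ultrafilter ℕ) (hU : (U : Filter ℕ) ≤ atTop)
    (h6 : ∀ z : ℤ, 6 ∣ z → z ∈ Lim S U) : False := by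
  have : NeZero (6 * L) := ⟨by omega⟩
  obtain ⟨c, hc⟩ := ultra_color U (fun i => ((i : ℕ) : ZMod (6 * L)))
  have hR : ∀ᶠ i : ℕ in (U : Filter ℕ), ∀ᶠ j : ℕ in (U : Filter ℕ), i + G < j ∧
      (∃ k ∈ S, (k : ℤ) = j - i + 0) := by
    have h0 : ∀ᶠ i : ℕ in (U : Filter ℕ), ∀ᶠ j : ℕ in (U : Filter ℕ), ∃ k ∈ S, (k : ℤ) = j - i + 0 := h6 0 (dvd_zero _)
    filter_upwards [h0] with i b
    exact ((eventually_gt_atTop (i + G)).filter_mono hU).and b
  obtain ⟨s, hs1, hs2, hs3⟩ := ultra_seq U hU (fun i => ((i : ℕ) : ZMod (6 * L)) = c) _ hc hR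
  have hdvd6L : ∀ i j : ℕ, ((6 * L : ℕ) : ℤ) ∣ (s i : ℤ) - s j := by
    intro i j
    rw [← ZMod.intCast_eq_intCast_iff_dvd_sub]
    push_cast
    rw [hs2, hs2]
  have hdvd : ∀ i j : ℕ, (L : ℤ) ∣ (s i : ℤ) - s j := fun i j =>
    dvd_trans ⟨6, by push_cast; ring⟩ (hdvd6L i j)
  have hdvd6 : ∀ i j : ℕ, (6 : ℤ) ∣ (s i : ℤ) - s j := fun i j =>
    dvd_trans ⟨L, by push_cast; ring⟩ (hdvd6L i j)
  have hmono : ∀ i j : ℕ, i ≤ j → s i ≤ s j := by
    intro i j hij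
    rcases Nat.lt_or_eq_of_le hij with h | h
    · exact (hs1 i j h).le
    · rw [h]
  have hinj : ∀ i j : ℕ, s i = s j → i = j := by
    intro i j h
    rcases lt_trichotomy i j with h1 | h1 | h1
    · have := hs1 i j h1
      omega
    · exact h1
    · have := hs1 j i h1
      omega
  obtain ⟨H, hH1, hH6, hH2⟩ := hbad (4 * s (4 * K + 1) + 8 * G + 8)
  -- indices
  obtain ⟨t, ht⟩ : ∃ t : ℕ → Fin K → ℕ, t = fun (g : ℕ) (k : Fin K) => 1 + g * K + (k : ℕ) := ⟨_, rfl⟩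
  have ht0 : ∀ g k, 0 < t g k := by
    intro g k
    rw [ht]
    show 0 < 1 + g * K + (k : ℕ)
    omega
  have htlt : ∀ g g' : ℕ, g < g' → ∀ k k', t g k < t g' k' := by
    intro g g' hg k k'
    rw [ht]
    have h2 : (g + 1) * K ≤ g' * K := Nat.mul_le_mul_right _ hg
    have h3 := k.2
    have h5 : (g + 1) * K = g * K + K := by ring
    show 1 + g * K + (k : ℕ) < 1 + g' * K + (k' : ℕ)
    omega
  have htle : ∀ g : ℕ, g < 4 → ∀ k, s (t g k) ≤ s (4 * K + 1) := by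
    intro g hg k
    apply hmono
    rw [ht]
    have h2 : (g + 1) * K ≤ 4 * K := Nat.mul_le_mul_right _ hg
    have h3 := k.2
    have h5 : (g + 1) * K = g * K + K := by ring
    show 1 + g * K + (k : ℕ) ≤ 4 * K + 1
    omega
  have htinj : ∀ g k k', s (t g k) = s (t g k') → k = k' := by
    intro g k k' h
    have h1 := hinj _ _ h
    rw [ht] at h1
    have h2 : 1 + g * K + (k : ℕ) = 1 + g * K + (k' : ℕ) := h1
    apply Fin.ext
    omega
  have hU' : ∀ g k, ∃ d ∈ S, (d : ℤ) = s (t g k) - s 0 + 0 := fun g k => (hs3 0 _ (ht0 g k)).2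
  have hgap : ∀ g k, s 0 + G < s (t g k) := fun g k => (hs3 0 _ (ht0 g k)).1
  -- the shift
  obtain ⟨r, hr⟩ : ∃ r : ℕ, r = H + 2 * s 0 := ⟨_, rfl⟩
  obtain ⟨W, hW⟩ : ∃ W : ℕ, W = r + 2 * s (4 * K + 1) := ⟨_, rfl⟩
  have hfin : ∀ᶠ i : ℕ in (U : Filter ℕ), ∀ᶠ j : ℕ in (U : Filter ℕ), ∀ f ∈ (Icc (-(W : ℤ)) W).filter (fun f => 6 ∣ f),
      ∃ k ∈ S, (k : ℤ) = j - i - f := by
    simp only [Filter.eventually_all_finset]
    intro f hf
    have h1 : ∀ᶠ i : ℕ in (U : Filter ℕ), ∀ᶠ j : ℕ in (U : Filter ℕ), ∃ k ∈ S, (k : ℤ) = j - i + (-f) :=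
      h6 (-f) ((dvd_neg).2 (mem_filter.1 hf).2)
    simpa only [sub_eq_add_neg] using h1
  obtain ⟨i, hi⟩ := hfin.exists
  obtain ⟨j, hj1, hj2⟩ := (hi.and ((eventually_gt_atTop (i + W + G)).filter_mono hU)).exists
  obtain ⟨x, hx, ex⟩ := (hs3 0 1 (by norm_num)).2
  have hxG := (hs3 0 1 (by norm_num)).1
  obtain ⟨H', hH1', -, hH2'⟩ := hbad (x + j + 2 * r + 2 * W + 2 * G + 8)
  have hsh : ∀ f : ℤ, 6 ∣ f → -(W : ℤ) ≤ f → f ≤ W → ∀ d ∈ S, (d : ℤ) ≠ ((H' : ℤ) - x - (j - i)) + f := by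
    intro f hf1 hf2 hf3 d hd he
    obtain ⟨k, hk, ek⟩ := hj1 f (mem_filter.2 ⟨mem_Icc.2 ⟨hf2, hf3⟩, hf1⟩)
    exact hH2' x hx k hk d hd (by omega) (by omega) (by omega) (by omega)
  refine four_int h4 (fun k => (s (t 0 k) : ℤ)) (fun k => (r : ℤ) - s (t 1 k))
    (fun k => ((H' : ℤ) - x - (j - i)) + s (t 2 k)) (fun k => ((H' : ℤ) - x - (j - i)) + r - s (t 3 k))
    ?_ ?_ ?_ ?_ ?_ ?_ ?_ ?_ ?_ ?_ ?_ ?_ ?_ ?_ ?_
  · intro k
    positivity
  · intro k k' h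
    have h' : (s (t 0 k) : ℤ) = (s (t 0 k') : ℤ) := h
    exact htinj 0 k k' (by omega)
  · intro k k' h
    have h' : (r : ℤ) - s (t 1 k) = (r : ℤ) - s (t 1 k') := h
    exact htinj 1 k k' (by omega)
  · intro k k' h
    have h' : ((H' : ℤ) - x - (j - i)) + s (t 2 k) = ((H' : ℤ) - x - (j - i)) + s (t 2 k') := h
    exact htinj 2 k k' (by omega)
  · intro k k' h
    have h' : ((H' : ℤ) - x - (j - i)) + r - s (t 3 k) = ((H' : ℤ) - x - (j - i)) + r - s (t 3 k') := h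
    exact htinj 3 k k' (by omega)
  · intro k k'
    exact hdvd _ _
  · intro k k'
    have := hdvd (t 1 k') (t 1 k)
    have e : ((r : ℤ) - s (t 1 k)) - ((r : ℤ) - s (t 1 k')) = (s (t 1 k') : ℤ) - s (t 1 k) := by ring
    show (L : ℤ) ∣ ((r : ℤ) - s (t 1 k)) - ((r : ℤ) - s (t 1 k'))
    rwa [e]
  · intro k k'
    have := hdvd (t 2 k) (t 2 k')
    have e : (((H' : ℤ) - x - (j - i)) + s (t 2 k)) - (((H' : ℤ) - x - (j - i)) + s (t 2 k')) =
      (s (t 2 k) : ℤ) - s (t 2 k') := by ring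
    show (L : ℤ) ∣ (((H' : ℤ) - x - (j - i)) + s (t 2 k)) - (((H' : ℤ) - x - (j - i)) + s (t 2 k'))
    rwa [e]
  · intro k k'
    have := hdvd (t 3 k') (t 3 k)
    have e : (((H' : ℤ) - x - (j - i)) + r - s (t 3 k)) - (((H' : ℤ) - x - (j - i)) + r - s (t 3 k')) =
      (s (t 3 k') : ℤ) - s (t 3 k) := by ring
    show (L : ℤ) ∣ (((H' : ℤ) - x - (j - i)) + r - s (t 3 k)) - (((H' : ℤ) - x - (j - i)) + r - s (t 3 k'))
    rwa [e]
  · -- 01
    intro k k'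
    obtain ⟨a, ha, ea⟩ := hU' 1 k'
    obtain ⟨b, hb, eb⟩ := hU' 0 k
    have g1 := hgap 1 k'
    have g2 := hgap 0 k
    have g3 := htle 1 (by norm_num) k'
    have g4 := htle 0 (by norm_num) k
    refine ⟨?_, fun d hd he => ?_⟩
    · show (s (t 0 k) : ℤ) < (r : ℤ) - s (t 1 k')
      omega
    · have he' : (d : ℤ) = (r : ℤ) - s (t 1 k') - s (t 0 k) := he
      exact hH2 a ha b hb d hd (by omega) (by omega) (by omega) (by omega)
  · -- 02
    intro k k'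
    have g1 := hgap 2 k'
    have g2 := hgap 0 k
    have g3 := htle 2 (by norm_num) k'
    have g4 := htle 0 (by norm_num) k
    have e6 := hdvd6 (t 2 k') (t 0 k)
    refine ⟨?_, fun d hd he => ?_⟩
    · show (s (t 0 k) : ℤ) < ((H' : ℤ) - x - (j - i)) + s (t 2 k')
      omega
    · have he' : (d : ℤ) = ((H' : ℤ) - x - (j - i)) + s (t 2 k') - s (t 0 k) := he
      refine hsh ((s (t 2 k') : ℤ) - s (t 0 k)) (by omega) (by omega) (by omega) d hd (by omega)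
  · -- 03
    intro k k'
    have g1 := hgap 3 k'
    have g2 := hgap 0 k
    have g3 := htle 3 (by norm_num) k'
    have g4 := htle 0 (by norm_num) k
    have e6 := hdvd6 (t 3 k') 0
    have e6' := hdvd6 (t 0 k) 0
    refine ⟨?_, fun d hd he => ?_⟩
    · show (s (t 0 k) : ℤ) < ((H' : ℤ) - x - (j - i)) + r - s (t 3 k')
      omega
    · have he' : (d : ℤ) = ((H' : ℤ) - x - (j - i)) + r - s (t 3 k') - s (t 0 k) := he
      refine hsh ((r : ℤ) - s (t 3 k') - s (t 0 k)) (by omega) (by omega) (by omega) d hd (by omega)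
  · -- 12
    intro k k'
    have g1 := hgap 2 k'
    have g2 := hgap 1 k
    have g3 := htle 2 (by norm_num) k'
    have g4 := htle 1 (by norm_num) k
    have e6 := hdvd6 (t 2 k') 0
    have e6' := hdvd6 (t 1 k) 0
    refine ⟨?_, fun d hd he => ?_⟩
    · show (r : ℤ) - s (t 1 k) < ((H' : ℤ) - x - (j - i)) + s (t 2 k')
      omega
    · have he' : (d : ℤ) = ((H' : ℤ) - x - (j - i)) + s (t 2 k') - ((r : ℤ) - s (t 1 k)) := he
      refine hsh ((s (t 2 k') : ℤ) + s (t 1 k) - r) (by omega) (by omega) (by omega) d hd (by omega)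
  · -- 13
    intro k k'
    have g1 := hgap 3 k'
    have g2 := hgap 1 k
    have g3 := htle 3 (by norm_num) k'
    have g4 := htle 1 (by norm_num) k
    have e6 := hdvd6 (t 1 k) (t 3 k')
    refine ⟨?_, fun d hd he => ?_⟩
    · show (r : ℤ) - s (t 1 k) < ((H' : ℤ) - x - (j - i)) + r - s (t 3 k')
      omega
    · have he' : (d : ℤ) = ((H' : ℤ) - x - (j - i)) + r - s (t 3 k') - ((r : ℤ) - s (t 1 k)) := he
      refine hsh ((s (t 1 k) : ℤ) - s (t 3 k')) (by omega) (by omega) (by omega) d hd (by omega)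
  · -- 23
    intro k k'
    obtain ⟨a, ha, ea⟩ := hU' 3 k'
    obtain ⟨b, hb, eb⟩ := hU' 2 k
    have g1 := hgap 3 k'
    have g2 := hgap 2 k
    have g3 := htle 3 (by norm_num) k'
    have g4 := htle 2 (by norm_num) k
    refine ⟨?_, fun d hd he => ?_⟩
    · show ((H' : ℤ) - x - (j - i)) + s (t 2 k) < ((H' : ℤ) - x - (j - i)) + r - s (t 3 k')
      omega
    · have he' : (d : ℤ) = ((H' : ℤ) - x - (j - i)) + r - s (t 3 k') - (((H' : ℤ) - x - (j - i)) + s (t 2 k)) := he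
      exact hH2 a ha b hb d hd (by omega) (by omega) (by omega) (by omega)

theorem zero_Lim {K L : ℕ} (hL : 0 < L) {S : Set ℕ} (h4 : Four K L S) (U : Ultrafilter ℕ)
    (hU : (U : Filter ℕ) ≤ atTop) : (0 : ℤ) ∈ Lim S U :=
  Pool.Agent.H40E9.CM.zero_mem (star_Lim hL h4 U hU)

/-- **every large multiple of six is a sum of three** -/
theorem three {K L : ℕ} (hL : 0 < L) {S : Set ℕ} (h4 : Four K L S) (G : ℕ) :
    ∃ N : ℕ, ∀ h, N ≤ h → 6 ∣ h → ∃ a ∈ S, ∃ b ∈ S, ∃ c ∈ S, G < a ∧ G < b ∧ G < c ∧ a + b + c = h := by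
  by_contra hcon
  push Not at hcon
  have hbad : ∀ N : ℕ, ∃ h, N ≤ h ∧ 6 ∣ h ∧ Bad S G h := hcon
  obtain ⟨U, hU⟩ : ∃ U : Ultrafilter ℕ, (U : Filter ℕ) ≤ atTop := ⟨Ultrafilter.of atTop, Ultrafilter.of_le _⟩
  have hst := star_Lim hL h4 U hU
  have h0 := zero_Lim hL h4 U hU
  have hsub : ∀ u ∈ Lim S U, ∀ v ∈ Lim S U, u - v ∈ Lim S U := fun u hu v hv =>
    sub_mem hL h4 (fun N => by
      obtain ⟨h, a, -, b⟩ := hbad N
      exact ⟨h, a, b⟩) U hU hu hv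
  obtain ⟨P, hP⟩ : ∃ P : AddSubgroup ℤ, (P : Set ℤ) = Lim S U := by
    have hneg : ∀ u ∈ Lim S U, -u ∈ Lim S U := fun u hu => by
      have := hsub 0 h0 u hu
      rwa [zero_sub] at this
    exact ⟨{ carrier := Lim S U
             zero_mem' := h0
             neg_mem' := fun {u} hu => hneg u hu
             add_mem' := fun {u v} hu hv => by
              have := hsub u hu (-v) (hneg v hv)
              rwa [sub_neg_eq_add] at this }, rfl⟩
  have h6 : (6 : ℤ) ∈ P := by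
    have h1 : (1 : ℤ) ∈ P ∨ (2 : ℤ) ∈ P ∨ (3 : ℤ) ∈ P := by
      have e : ∀ z : ℤ, z ∈ Lim S U → z ∈ P := fun z hz => by rw [← SetLike.mem_coe, hP]; exact hz
      rcases hst 0 1 2 3 with h | h | h | h | h | h
      · exact Or.inl (e 1 (by simpa using h))
      · exact Or.inr (Or.inl (e 2 (by simpa using h)))
      · exact Or.inr (Or.inr (e 3 (by simpa using h)))
      · exact Or.inl (e 1 (by norm_num at h; exact h))
      · exact Or.inr (Or.inl (e 2 (by norm_num at h; exact h)))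
      · exact Or.inl (e 1 (by norm_num at h; exact h))
    rcases h1 with h | h | h
    · have := P.zsmul_mem h 6
      simpa using this
    · have := P.zsmul_mem h 3
      simpa using this
    · have := P.zsmul_mem h 2
      simpa using this
  refine no_bad hL h4 hbad U hU fun z hz => ?_
  obtain ⟨m, rfl⟩ := hz
  have := P.zsmul_mem h6 m
  rw [← hP, SetLike.mem_coe]
  rwa [smul_eq_mul, mul_comm] at this

/-- every large multiple of six is a sum of `m` elements, for every `m ≥ 3` -/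
theorem sums {K L : ℕ} (hL : 0 < L) {S : Set ℕ} (h4 : Four K L S) (G : ℕ) {m : ℕ} (hm : 3 ≤ m) :
    ∃ N : ℕ, ∀ h, N ≤ h → 6 ∣ h → ∃ g : Fin m → ℕ, (∀ i, g i ∈ S ∧ G < g i) ∧ ∑ i, g i = h := by
  obtain ⟨N, hN⟩ := three hL h4 G
  -- one multiple of six
  obtain ⟨d, hd, hdG, hd6⟩ : ∃ d ∈ S, G < d ∧ 6 ∣ d := by
    obtain ⟨U, hU⟩ : ∃ U : Ultrafilter ℕ, (U : Filter ℕ) ≤ atTop := ⟨Ultrafilter.of atTop, Ultrafilter.of_le _⟩
    have h0 : ∀ᶠ i : ℕ in (U : Filter ℕ), ∀ᶠ j : ℕ in (U : Filter ℕ), ∃ k ∈ S, (k : ℤ) = j - i + 0 :=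
      zero_Lim hL h4 U hU
    obtain ⟨c, hc⟩ := ultra_color U (fun i => ((i : ℕ) : ZMod 6))
    obtain ⟨i, hi, hic⟩ := (h0.and hc).exists
    obtain ⟨j, ⟨hj, hjc⟩, hj2⟩ := ((hi.and hc).and ((eventually_gt_atTop (i + G)).filter_mono hU)).exists
    obtain ⟨k, hk, ek⟩ := hj
    refine ⟨k, hk, by omega, ?_⟩
    have h1 : (6 : ℤ) ∣ (j : ℤ) - i := by
      have : (((i : ℕ) : ℤ) : ZMod 6) = (((j : ℕ) : ℤ) : ZMod 6) := by
        push_cast
        rw [hic, hjc]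
      exact_mod_cast (ZMod.intCast_eq_intCast_iff_dvd_sub _ _ 6).1 this
    omega
  obtain ⟨n, rfl⟩ : ∃ n, m = n + 3 := ⟨m - 3, by omega⟩
  refine ⟨N + n * d, fun h hh h6 => ?_⟩
  obtain ⟨a, ha, b, hb, c, hc, ga, gb, gc, e⟩ := hN (h - n * d) (by omega) (by
    apply Nat.dvd_sub h6
    exact hd6.mul_left n)
  refine ⟨Fin.append (fun _ : Fin n => d) ![a, b, c], ?_, ?_⟩
  · intro i
    refine Fin.addCases (fun j => ?_) (fun j => ?_) i
    · rw [Fin.append_left]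
      exact ⟨hd, hdG⟩
    · rw [Fin.append_right]
      fin_cases j
      · exact ⟨ha, ga⟩
      · exact ⟨hb, gb⟩
      · exact ⟨hc, gc⟩
  · rw [Fin.sum_univ_add]
    simp only [Fin.append_left, Fin.append_right, sum_const, card_univ, Fintype.card_fin, smul_eq_mul,
      Fin.sum_univ_three]
    show n * d + (a + b + c) = h
    omega

/-- the version for scales -/
theorem seq_sums {K L : ℕ} (hL : 0 < L) {D : ℕ → ℕ → Prop} (h4 : FourClasses K L D) (G : ℕ) {m : ℕ} (hm : 3 ≤ m) :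
    ∃ N : ℕ, ∀ h, N ≤ h → 6 ∣ h → ∃ g : Fin m → ℕ, (∀ i, G < g i) ∧ ∑ i, g i = h ∧
      ∃ᶠ s in atTop, ∀ i, D s (g i) := by
  obtain ⟨V, hV⟩ : ∃ V : Ultrafilter ℕ, (V : Filter ℕ) ≤ atTop := ⟨Ultrafilter.of atTop, Ultrafilter.of_le _⟩
  obtain ⟨N, hN⟩ := sums hL (four_GG h4 V hV) G hm
  refine ⟨N, fun h h1 h2 => ?_⟩
  obtain ⟨g, hg, e⟩ := hN h h1 h2
  refine ⟨g, fun i => (hg i).2, e, ?_⟩
  have h3 : ∀ᶠ s in (V : Filter ℕ), ∀ i, D s (g i) := by
    rw [eventually_all]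
    intro i
    exact (hg i).1
  exact h3.frequently.filter_mono hV

end Pool.Agent.HP27.S3
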