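import Mathlib
import Pool.Agent.HP27.S3.FourS
import Pool.Agent.HP27.S3.Three
/-!
# Differences of consecutive primes between consecutive cubes, for a positive proportion of the cubes
-/

set_option autoImplicit false

namespace Pool.Agent.HP27.S3

open Finset Filter
open Pool.Agent.N694.SP (Spr)
open Pool.Agent.H40E9.SG (FourClasses structured)

/-- the number of the pairs `p < p + d` of primes between `n ^ 3` and `(n + 1) ^ 3` such that there are no other primes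
between `p - P` and `p + d + P` -/
noncomputable def cpairs (P d n : ℕ) : ℕ := {p : ℕ | Iso P d p ∧ n ^ 3 < p ∧ p + d < (n + 1) ^ 3}.ncard

/-- many pairs for a positive proportion of the `n ≤ X` -/
def RichP (B P : ℕ) (c : ℝ) (d X : ℕ) : Prop :=
  c * X ≤ ({n : ℕ | n ≤ X ∧ (X : ℝ) ^ 2 / Real.log X ^ B ≤ (cpairs P d n : ℝ)}.ncard : ℝ)

theorem RichP_mono {B P d X : ℕ} {c c' : ℝ} (h : RichP B P c d X) (hc : c' ≤ c) : RichP B P c' d X :=
  (mul_le_mul_of_nonneg_right hc (Nat.cast_nonneg X)).trans h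

theorem cpairs_fin (P d n : ℕ) : {p : ℕ | Iso P d p ∧ n ^ 3 < p ∧ p + d < (n + 1) ^ 3}.Finite :=
  (Set.finite_Iio ((n + 1) ^ 3)).subset fun p hp => by
    have := hp.2.2
    show p < (n + 1) ^ 3
    omega

theorem exists_cube' (p : ℕ) : ∃ n : ℕ, n ^ 3 ≤ p ∧ p < (n + 1) ^ 3 := by
  induction p with
  | zero => exact ⟨0, by norm_num, by norm_num⟩
  | succ p ih =>
    obtain ⟨n, h1, h2⟩ := ih
    by_cases h : p + 1 < (n + 1) ^ 3
    · exact ⟨n, by omega, h⟩
    · refine ⟨n + 1, by omega, ?_⟩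
      have h3 : (n + 1) ^ 3 < (n + 1 + 1) ^ 3 := Nat.pow_lt_pow_left (by omega) (by norm_num)
      omega

/-- from spread sets to the intervals between the cubes -/
theorem rich_of_spr (r W V : ℕ) (c₀ C₀ : ℝ) (hW : 0 < W) (hc₀ : 0 < c₀) (hC₀ : 0 < C₀) : ∀ᶠ X : ℕ in atTop,
    ∀ (P d ν : ℕ) (R : Finset ℕ), d ≤ V → ν ≤ V → Spr r 1 c₀ C₀ (X ^ 3 / (2 * W)) R →
      (∀ m ∈ R, Iso P d (W * m + ν)) → RichP (r + 1) P (c₀ / (64 * W * C₀)) d X := by
  classical
  have hX : Tendsto (fun X : ℕ => (X : ℝ)) atTop atTop := tendsto_natCast_atTop_atTop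
  have hlog : Tendsto (fun X : ℕ => Real.log X) atTop atTop := Real.tendsto_log_atTop.comp hX
  have hW1 : (1 : ℝ) ≤ W := by exact_mod_cast hW
  have hsmall : ∀ᶠ X : ℕ in atTop, (V : ℝ) * 3 ^ r * Real.log X ^ r ≤ c₀ / (16 * W) * (X : ℝ) ^ 2 := by
    have h3 : (fun x : ℝ => Real.log x ^ r) =o[atTop] (fun x : ℝ => x) := by
      have := isLittleO_log_rpow_rpow_atTop (s := 1) ((r : ℕ) : ℝ) one_pos
      simpa only [Real.rpow_natCast, Real.rpow_one] using this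
    have h4 := (h3.def (show (0 : ℝ) < c₀ / (16 * W) / ((V : ℝ) * 3 ^ r + 1) by positivity)).and
      (eventually_ge_atTop (1 : ℝ))
    have h5 := hX.eventually h4
    filter_upwards [h5] with X hX
    obtain ⟨h6, h7⟩ := hX
    rw [Real.norm_eq_abs, Real.norm_eq_abs, abs_of_nonneg (by linarith : (0 : ℝ) ≤ X)] at h6
    have h8 := le_abs_self (Real.log (X : ℝ) ^ r)
    have h9 : ((V : ℝ) * 3 ^ r + 1) * Real.log X ^ r ≤ c₀ / (16 * W) * X := by
      calc ((V : ℝ) * 3 ^ r + 1) * Real.log X ^ r ≤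
            ((V : ℝ) * 3 ^ r + 1) * (c₀ / (16 * W) / ((V : ℝ) * 3 ^ r + 1) * X) :=
            mul_le_mul_of_nonneg_left (h8.trans h6) (by positivity)
        _ = c₀ / (16 * W) * X := by field_simp
    have h10 : 0 ≤ Real.log (X : ℝ) ^ r := pow_nonneg (Real.log_nonneg h7) _
    have h11 : c₀ / (16 * W) * (X : ℝ) ≤ c₀ / (16 * W) * (X : ℝ) ^ 2 :=
      mul_le_mul_of_nonneg_left (by nlinarith) (by positivity)
    nlinarith
  filter_upwards [hlog.eventually_ge_atTop (max 1 (3 ^ r * 16 * W / c₀)), hsmall,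
    eventually_ge_atTop (8 * V + 8 * W + 8)] with X hL hS hX1 P d ν R hd hν hR hiso
  have hXr : (1 : ℝ) ≤ X := by exact_mod_cast (by omega : 1 ≤ X)
  have hX0 : (0 : ℝ) < X := by linarith
  obtain ⟨L, hLdef⟩ : ∃ L : ℝ, L = Real.log X := ⟨_, rfl⟩
  rw [← hLdef] at hL hS
  have hL1 : 1 ≤ L := (le_max_left _ _).trans hL
  have hL2 : 3 ^ r * 16 * W / c₀ ≤ L := (le_max_right _ _).trans hL
  have hL0 : 0 < L := by linarith
  obtain ⟨N, hN⟩ : ∃ N : ℕ, N = X ^ 3 / (2 * W) := ⟨_, rfl⟩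
  rw [← hN] at hR
  have hX3 : X * X ≤ X ^ 3 := by
    have : X ^ 3 = X * X * X := by ring
    rw [this]
    exact Nat.le_mul_of_pos_right _ (by omega)
  have hXX : (8 * V + 8 * W + 8) * 1 ≤ X * X := Nat.mul_le_mul hX1 (by omega)
  have hN1 : 2 * W * N ≤ X ^ 3 := by rw [hN]; exact Nat.mul_div_le _ _
  have hN2 : X ^ 3 < 2 * W * N + 2 * W := by
    have := Nat.lt_mul_div_succ (X ^ 3) (by omega : 0 < 2 * W)
    rw [← hN] at this
    linarith
  have hN3 : X ^ 3 ≤ 4 * W * N := by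
    have h1 : 4 * W ≤ X ^ 3 := by omega
    have h2 : 4 * W * N = 2 * (2 * W * N) := by ring
    omega
  have hNpos : 1 ≤ N := by
    by_contra hcon
    have : N = 0 := by omega
    rw [this] at hN3
    omega
  have hNX : N ≤ X ^ 3 := by
    rw [hN]
    exact Nat.div_le_self _ _
  have hN3r : (X : ℝ) ^ 3 ≤ 4 * W * N := by exact_mod_cast hN3
  -- the logarithm of `N`
  have hlogN : Real.log N ≤ 3 * L := by
    have h1 : Real.log N ≤ Real.log ((X : ℝ) ^ 3) := by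
      apply Real.log_le_log (by exact_mod_cast hNpos)
      exact_mod_cast hNX
    rw [Real.log_pow, ← hLdef] at h1
    exact_mod_cast h1
  obtain ⟨Q, hQ⟩ : ∃ Q : ℝ, Q = Real.log N ^ r := ⟨_, rfl⟩
  have hlogN0 : 0 < Real.log N := by
    apply Real.log_pos
    have h1 : 8 * (W * N) < 4 * W * N * 8 := by nlinarith [Nat.mul_pos hW hNpos]
    have h2 : (8 * W) * 1 ≤ X * X := Nat.mul_le_mul (by omega) (by omega)
    have h3 : 2 ≤ N := by
      by_contra hcon
      have : N = 1 := by omega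
      rw [this] at hN3
      omega
    exact_mod_cast h3
  have hQ0 : 0 < Q := by rw [hQ]; positivity
  have hQL : Q ≤ 3 ^ r * L ^ r := by
    rw [hQ, ← mul_pow]
    exact pow_le_pow_left₀ hlogN0.le hlogN r
  obtain ⟨hR1, hR2, hR3⟩ := hR
  rw [← hQ] at hR2
  -- the classes
  choose f hf1 hf2 using exists_cube'
  have hfX : ∀ m ∈ R, f (W * m + ν) < X := by
    intro m hm
    have h1 := (hR1 m hm).2
    have h2 : W * m ≤ W * N := Nat.mul_le_mul_left _ h1
    have h3 := hf1 (W * m + ν)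
    have h4 : W * m + ν < X ^ 3 := by
      have h5 : 2 * W * N = 2 * (W * N) := by ring
      omega
    by_contra hcon
    have h5 : X ^ 3 ≤ (f (W * m + ν)) ^ 3 := Nat.pow_le_pow_left (not_lt.1 hcon) 3
    omega
  have hcover : R ⊆ (range X).biUnion (fun n => R.filter (fun m => f (W * m + ν) = n)) := by
    intro m hm
    rw [mem_biUnion]
    exact ⟨_, mem_range.2 (hfX m hm), mem_filter.2 ⟨hm, rfl⟩⟩
  have hone : ∀ n, (R.filter (fun m => f (W * m + ν) = n)).card ≤ cpairs P d n + V := by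
    intro n
    have h1 : (R.filter (fun m => f (W * m + ν) = n)).card ≤
        ((cpairs_fin P d n).toFinset ∪ Finset.Ico ((n + 1) ^ 3 - V) ((n + 1) ^ 3)).card := by
      apply card_le_card_of_injOn (fun m => W * m + ν)
      · intro m hm
        obtain ⟨hmR, hmn⟩ := mem_filter.1 (mem_coe.1 hm)
        have hp1 := hf1 (W * m + ν)
        have hp2 := hf2 (W * m + ν)
        rw [hmn] at hp1 hp2
        have hq := hiso m hmR
        rw [mem_coe, mem_union]
        by_cases h : W * m + ν + d < (n + 1) ^ 3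
        · left
          rw [Set.Finite.mem_toFinset]
          refine ⟨hq, ?_, h⟩
          rcases Nat.lt_or_eq_of_le hp1 with h5 | h5
          · exact h5
          · exfalso
            have h6 := hq.1
            rw [← h5] at h6
            exact Nat.Prime.not_prime_pow (by norm_num) h6
        · right
          rw [mem_Ico]
          have : d ≤ V := hd
          show (n + 1) ^ 3 - V ≤ W * m + ν ∧ W * m + ν < (n + 1) ^ 3
          omega
      · intro m _ m' _ he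
        have h5 : W * m + ν = W * m' + ν := he
        exact Nat.eq_of_mul_eq_mul_left hW (by omega)
    have h3 := card_union_le (cpairs_fin P d n).toFinset (Finset.Ico ((n + 1) ^ 3 - V) ((n + 1) ^ 3))
    rw [Nat.card_Ico] at h3
    have h4 : (cpairs_fin P d n).toFinset.card = cpairs P d n := by
      unfold cpairs
      rw [Set.ncard_eq_toFinset_card _ (cpairs_fin P d n)]
    rw [h4] at h3
    omega
  have htwo : ∀ n, n < X → ((R.filter (fun m => f (W * m + ν) = n)).card : ℝ) ≤ C₀ * (8 * (X : ℝ) ^ 2 / Q) := by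
    intro n hn
    rcases (R.filter (fun m => f (W * m + ν) = n)).eq_empty_or_nonempty with he | hne
    · rw [he, card_empty, Nat.cast_zero]
      positivity
    obtain ⟨m₀, hm₀, hmin⟩ := exists_min_image _ (fun m : ℕ => m) hne
    obtain ⟨hm₀R, hm₀n⟩ := mem_filter.1 hm₀
    have h1 := (hR1 m₀ hm₀R).1
    have h2 := hR3 (m₀ - 1) (8 * X ^ 2) (by
      have h5 : (8 * X ^ 2) ^ (1 + 1) = 64 * X * X ^ 3 := by ring
      rw [h5]
      have h6 : 1 * X ^ 3 ≤ 64 * X * X ^ 3 := Nat.mul_le_mul_right _ (by omega)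
      omega)
    rw [← hQ] at h2
    push_cast at h2
    refine le_trans ?_ h2
    rw [Nat.cast_le]
    apply card_le_card
    intro m hm
    have hmin' := hmin m hm
    obtain ⟨hmR, hmn⟩ := mem_filter.1 hm
    rw [mem_filter]
    refine ⟨hmR, by omega, ?_⟩
    have h3 := hf1 (W * m₀ + ν)
    have h4 := hf2 (W * m + ν)
    rw [hm₀n] at h3
    rw [hmn] at h4
    have h5 : (n + 1) ^ 3 = n ^ 3 + (3 * n ^ 2 + 3 * n + 1) := by ring
    have h6 : 3 * n ^ 2 + 3 * n + 1 ≤ 7 * X ^ 2 := by nlinarith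
    have h7 : W * m < W * m₀ + 7 * X ^ 2 := by omega
    have h8 : m < m₀ + 7 * X ^ 2 := by
      by_contra hcon
      have h9 : W * (m₀ + 7 * X ^ 2) ≤ W * m := Nat.mul_le_mul_left _ (not_lt.1 hcon)
      have h10 : W * (m₀ + 7 * X ^ 2) = W * m₀ + W * (7 * X ^ 2) := by ring
      have h11 : 1 * (7 * X ^ 2) ≤ W * (7 * X ^ 2) := Nat.mul_le_mul_right _ hW
      omega
    have h9 : 1 ≤ X ^ 2 := Nat.one_le_pow _ _ (by omega)
    omega
  -- the good `n`
  obtain ⟨g, hg⟩ : ∃ g : Finset ℕ, g = (range (X + 1)).filter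
      (fun n => (X : ℝ) ^ 2 / L ^ (r + 1) ≤ (cpairs P d n : ℝ)) := ⟨_, rfl⟩
  have hgc : ({n : ℕ | n ≤ X ∧ (X : ℝ) ^ 2 / L ^ (r + 1) ≤ (cpairs P d n : ℝ)}.ncard : ℝ) = g.card := by
    rw [← Set.ncard_coe_finset]
    congr 2
    ext n
    rw [hg]
    simp only [coe_filter, mem_range, Set.mem_ofPred_eq, Nat.lt_succ_iff]
  unfold RichP
  rw [← hLdef, hgc]
  obtain ⟨T, hT⟩ : ∃ T : ℝ, T = C₀ * (8 * (X : ℝ) ^ 2 / Q) := ⟨_, rfl⟩
  have hT0 : 0 ≤ T := by rw [hT]; positivity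
  have hsum : (R.card : ℝ) ≤ T * g.card + X * ((X : ℝ) ^ 2 / L ^ (r + 1) + V) := by
    have h1 : (R.card : ℝ) ≤ ∑ n ∈ range X, ((R.filter (fun m => f (W * m + ν) = n)).card : ℝ) := by
      have h2 := (card_le_card hcover).trans card_biUnion_le
      exact_mod_cast h2
    have h2 : ∀ n ∈ range X, ((R.filter (fun m => f (W * m + ν) = n)).card : ℝ) ≤
        (if (X : ℝ) ^ 2 / L ^ (r + 1) ≤ (cpairs P d n : ℝ) then T else 0) + ((X : ℝ) ^ 2 / L ^ (r + 1) + V) := by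
      intro n hn
      have h4 : (0 : ℝ) ≤ (X : ℝ) ^ 2 / L ^ (r + 1) := by positivity
      have h5 : (0 : ℝ) ≤ V := Nat.cast_nonneg _
      split_ifs with h6
      · have := htwo n (mem_range.1 hn)
        rw [← hT] at this
        linarith
      · push Not at h6
        have h7 : ((R.filter (fun m => f (W * m + ν) = n)).card : ℝ) ≤ cpairs P d n + V := by
          exact_mod_cast hone n
        linarith
    calc (R.card : ℝ) ≤ _ := h1
      _ ≤ _ := sum_le_sum h2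
      _ = T * ((range X).filter (fun n => (X : ℝ) ^ 2 / L ^ (r + 1) ≤ (cpairs P d n : ℝ))).card +
          X * ((X : ℝ) ^ 2 / L ^ (r + 1) + V) := by
          rw [sum_add_distrib, ← sum_filter, sum_const, sum_const, card_range, nsmul_eq_mul, nsmul_eq_mul]
          ring
      _ ≤ _ := by
          have h3 : (((range X).filter (fun n => (X : ℝ) ^ 2 / L ^ (r + 1) ≤ (cpairs P d n : ℝ))).card : ℝ) ≤ g.card := by
            rw [Nat.cast_le, hg]
            exact card_le_card (filter_subset_filter _ (range_mono (by omega)))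
          have := mul_le_mul_of_nonneg_left h3 hT0
          linarith
  -- multiply by `Q`
  have e1 : c₀ * N ≤ 8 * C₀ * (X : ℝ) ^ 2 * g.card + X * ((X : ℝ) ^ 2 / L ^ (r + 1) + V) * Q := by
    have h1 : c₀ * (N / Q) ≤ T * g.card + X * ((X : ℝ) ^ 2 / L ^ (r + 1) + V) := hR2.trans hsum
    have h2 := mul_le_mul_of_nonneg_right h1 hQ0.le
    have h3 : c₀ * (N / Q) * Q = c₀ * N := by field_simp
    have h4 : (T * g.card + X * ((X : ℝ) ^ 2 / L ^ (r + 1) + V)) * Q =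
        8 * C₀ * (X : ℝ) ^ 2 * g.card + X * ((X : ℝ) ^ 2 / L ^ (r + 1) + V) * Q := by
      rw [hT]
      field_simp
    rw [h3, h4] at h2
    exact h2
  have e2 : X * ((X : ℝ) ^ 2 / L ^ (r + 1) + V) * Q ≤ c₀ / (16 * W) * (X : ℝ) ^ 3 + c₀ / (16 * W) * (X : ℝ) ^ 3 := by
    have h1 : X * ((X : ℝ) ^ 2 / L ^ (r + 1) + V) * Q ≤ X * ((X : ℝ) ^ 2 / L ^ (r + 1) + V) * (3 ^ r * L ^ r) :=
      mul_le_mul_of_nonneg_left hQL (by positivity)
    have h2 : X * ((X : ℝ) ^ 2 / L ^ (r + 1) + V) * (3 ^ r * L ^ r) =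
        (X : ℝ) ^ 3 * (3 ^ r / L) + X * ((V : ℝ) * 3 ^ r * L ^ r) := by
      rw [pow_succ]
      field_simp
      ring
    have h3 : 3 ^ r / L ≤ c₀ / (16 * W) := by
      rw [div_le_div_iff₀ hL0 (by positivity)]
      rw [div_le_iff₀ hc₀] at hL2
      linarith
    have h4 : (X : ℝ) ^ 3 * (3 ^ r / L) ≤ (X : ℝ) ^ 3 * (c₀ / (16 * W)) :=
      mul_le_mul_of_nonneg_left h3 (by positivity)
    have h5 : X * ((V : ℝ) * 3 ^ r * L ^ r) ≤ X * (c₀ / (16 * W) * (X : ℝ) ^ 2) :=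
      mul_le_mul_of_nonneg_left hS hX0.le
    have h6 : X * (c₀ / (16 * W) * (X : ℝ) ^ 2) = c₀ / (16 * W) * (X : ℝ) ^ 3 := by ring
    linarith
  have e3 : c₀ / (4 * W) * (X : ℝ) ^ 3 ≤ c₀ * N := by
    have h1 : c₀ / (4 * W) * (X : ℝ) ^ 3 ≤ c₀ / (4 * W) * (4 * W * N) :=
      mul_le_mul_of_nonneg_left hN3r (by positivity)
    refine h1.trans (le_of_eq ?_)
    field_simp
  have e4 : c₀ / (8 * W) * (X : ℝ) ^ 3 ≤ 8 * C₀ * (X : ℝ) ^ 2 * g.card := by
    have h1 : c₀ / (4 * W) = c₀ / (8 * W) + (c₀ / (16 * W) + c₀ / (16 * W)) := by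
      field_simp
      ring
    rw [h1] at e3
    nlinarith
  have e5 : c₀ / (64 * W * C₀) * X = (c₀ / (8 * W) * (X : ℝ) ^ 3) / (8 * C₀ * (X : ℝ) ^ 2) := by
    field_simp
    ring
  rw [e5, div_le_iff₀ (by positivity)]
  linarith

/-- four classes, all scales, with constants tending to zero -/
theorem four_P : ∃ K B : ℕ, 1 ≤ K ∧ ∀ P : ℕ, 0 < P → 6 ∣ P →
    ∀ X : ℕ → ℕ, Tendsto X atTop atTop → ∀ ε : ℕ → ℝ, Tendsto ε atTop (nhds 0) →
      FourClasses K ((4 * K).factorial) (fun s k => RichP B P (ε s) (P * k) (X s)) := by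
  classical
  obtain ⟨K, hK, h⟩ := four_spread
  refine ⟨K, 4 * K + 1 + 1, hK, fun P hP h6 X hX ε hε A hA1 hA2 hA3 => ?_⟩
  obtain ⟨W, ν, c₀, C₀, hW, hc₀, hC₀, hev⟩ := h P hP h6 A hA1 hA2 hA3 1
  obtain ⟨V, hV⟩ : ∃ V : ℕ, V = ν + P * ∑ g, ∑ k, A g k := ⟨_, rfl⟩
  have hAV : ∀ g k, ν + P * A g k ≤ V := by
    intro g k
    rw [hV]
    have h1 : A g k ≤ ∑ g, ∑ k, A g k :=
      calc A g k ≤ ∑ k, A g k := single_le_sum (f := fun k => A g k) (fun _ _ => Nat.zero_le _) (mem_univ k)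
        _ ≤ _ := single_le_sum (f := fun g => ∑ k, A g k) (fun _ _ => Nat.zero_le _) (mem_univ g)
    have := Nat.mul_le_mul_left P h1
    omega
  have hN : Tendsto (fun X : ℕ => X ^ 3 / (2 * W)) atTop atTop := by
    apply tendsto_atTop.2
    intro b
    filter_upwards [eventually_ge_atTop (2 * W * b + 1)] with X hX
    rw [Nat.le_div_iff_mul_le (by omega)]
    have h1 : X * 1 ≤ X * X ^ 2 := Nat.mul_le_mul_left _ (Nat.one_le_pow _ _ (by omega))
    have h2 : X * X ^ 2 = X ^ 3 := by ring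
    have h3 : b * (2 * W) = 2 * W * b := by ring
    omega
  have h1 := rich_of_spr (4 * K + 1) W V c₀ C₀ hW hc₀ hC₀
  have hc₁ : 0 < c₀ / (64 * W * C₀) := by
    have : (0 : ℝ) < W := by exact_mod_cast hW
    positivity
  filter_upwards [(hN.comp hX).eventually hev, hX.eventually h1, hε.eventually (gt_mem_nhds hc₁)] with s hs1 hs2 hs3
  obtain ⟨g, g', hg, k, k', R, hR, hiso⟩ := hs1
  refine ⟨g, g', hg, k, k', RichP_mono (hs2 P (P * (A g' k' - A g k)) (ν + P * A g k) R ?_ (hAV g k) hR ?_) hs3.le⟩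
  · have h2 := hAV g' k'
    have h3 : P * (A g' k' - A g k) ≤ P * A g' k' := Nat.mul_le_mul_left _ (Nat.sub_le _ _)
    omega
  · intro m hm
    have := hiso m hm
    rwa [Nat.add_assoc] at this

/-- **three differences, positive proportion** -/
theorem propA : ∃ B : ℕ, ∀ P : ℕ, 0 < P → 6 ∣ P → ∀ h : ℤ, ((6 * P : ℕ) : ℤ) ∣ h → ∀ G : ℕ,
    ∃ (c : ℝ) (M : ℕ), 0 < c ∧ ∀ N : ℕ, M ≤ N → ∃ d₁ d₂ d₃ : ℕ,
      (G < d₁ ∧ G < d₂ ∧ G < d₃) ∧ (d₁ ≤ M ∧ d₂ ≤ M ∧ d₃ ≤ M) ∧ (P ∣ d₁ ∧ P ∣ d₂ ∧ P ∣ d₃) ∧ h = d₁ + d₂ - d₃ ∧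
      RichP B P c d₁ N ∧ RichP B P c d₂ N ∧ RichP B P c d₃ N := by
  classical
  obtain ⟨K, B, hK, hfour⟩ := four_P
  refine ⟨B, fun P hP h6 h hh G => ?_⟩
  by_contra hcon
  push Not at hcon
  have hcon' : ∀ M : ℕ, ∃ N : ℕ, M ≤ N ∧ ∀ d₁ d₂ d₃ : ℕ,
      (G < d₁ ∧ G < d₂ ∧ G < d₃) → (d₁ ≤ M ∧ d₂ ≤ M ∧ d₃ ≤ M) → (P ∣ d₁ ∧ P ∣ d₂ ∧ P ∣ d₃) → h = d₁ + d₂ - d₃ →
      RichP B P (1 / ((M : ℝ) + 1)) d₁ N → RichP B P (1 / ((M : ℝ) + 1)) d₂ N →
        ¬ RichP B P (1 / ((M : ℝ) + 1)) d₃ N := by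
    intro M
    exact hcon (1 / ((M : ℝ) + 1)) M (by positivity)
  choose X hX1 hX2 using hcon'
  have hX : Tendsto X atTop atTop := tendsto_atTop_mono hX1 tendsto_id
  obtain ⟨E, hE, h1, -⟩ := structured (K := K) (Nat.factorial_pos (4 * K))
    (hfour P hP h6 X hX (fun M : ℕ => 1 / ((M : ℝ) + 1)) tendsto_one_div_add_atTop_nhds_zero_nat)
  obtain ⟨t, rfl⟩ := hh
  have hE6 : E ∣ 6 := by rcases hE with rfl | rfl | rfl <;> norm_num
  obtain ⟨g₁, g₂, g₃, b1, b2, b3, e, hf⟩ := h1 (6 * t) (Dvd.dvd.mul_right (by exact_mod_cast hE6) t) G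
  have hle : ∀ g : ℕ, G < g → G < P * g := fun g hg => lt_of_lt_of_le hg (Nat.le_mul_of_pos_left g hP)
  obtain ⟨s, ⟨f1, f2, f3⟩, hs⟩ := (hf.and_eventually (eventually_ge_atTop (P * g₁ + P * g₂ + P * g₃))).exists
  refine hX2 s (P * g₁) (P * g₂) (P * g₃) ⟨hle _ b1, hle _ b2, hle _ b3⟩ ⟨by omega, by omega, by omega⟩
    ⟨dvd_mul_right _ _, dvd_mul_right _ _, dvd_mul_right _ _⟩ ?_ f1 f2 f3
  push_cast
  linear_combination (P : ℤ) * e

/-- **sums of `m` differences, positive proportion** -/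
theorem propB : ∃ B : ℕ, ∀ P : ℕ, 0 < P → 6 ∣ P → ∀ X : ℕ → ℕ, Tendsto X atTop atTop → ∀ m : ℕ, 3 ≤ m → ∀ G : ℕ,
    ∃ H : ℕ, ∀ h : ℕ, H ≤ h → 6 * P ∣ h → ∃ (c : ℝ) (d : Fin m → ℕ), 0 < c ∧ (∀ i, G < d i ∧ P ∣ d i) ∧ ∑ i, d i = h ∧
      ∃ᶠ s in atTop, ∀ i, RichP B P c (d i) (X s) := by
  classical
  obtain ⟨K, B, hK, hfour⟩ := four_P
  refine ⟨B, fun P hP h6 X hX m hm G => ?_⟩
  by_contra hcon
  push Not at hcon
  choose h hh1 hh2 hh3 using hcon
  -- for `j` and all later scales no tuple with sum `h j` is good with the constant `1 / (j + 1)`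
  have key : ∀ j : ℕ, ∀ᶠ s in atTop, ∀ i ≤ j, ∀ d : Fin m → ℕ, (∀ u, G < d u ∧ P ∣ d u) → ∑ u, d u = h i →
      ¬ ∀ u, RichP B P (1 / ((j : ℝ) + 1)) (d u) (X s) := by
    intro j
    have h1 : ∀ i ∈ Finset.range (j + 1), ∀ᶠ s in atTop, ∀ d : Fin m → ℕ, (∀ u, G < d u ∧ P ∣ d u) → ∑ u, d u = h i →
        ¬ ∀ u, RichP B P (1 / ((j : ℝ) + 1)) (d u) (X s) := by
      intro i _
      -- finitely many tuples
      obtain ⟨F, hF⟩ : ∃ F : Finset (Fin m → ℕ), ∀ d : Fin m → ℕ, ∑ u, d u = h i → d ∈ F :=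
        ⟨Fintype.piFinset (fun _ => Finset.range (h i + 1)), fun d hd => by
          rw [Fintype.mem_piFinset]
          intro u
          rw [mem_range, ← hd, Nat.lt_succ_iff]
          exact single_le_sum (f := d) (fun _ _ => Nat.zero_le _) (mem_univ u)⟩
      have h2 : ∀ᶠ s in atTop, ∀ d ∈ F, (∀ u, G < d u ∧ P ∣ d u) → ∑ u, d u = h i →
          ¬ ∀ u, RichP B P (1 / ((j : ℝ) + 1)) (d u) (X s) := by
        rw [Filter.eventually_all_finset]
        intro d _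
        by_cases hd : (∀ u, G < d u ∧ P ∣ d u) ∧ ∑ u, d u = h i
        · have h3 := hh3 i (1 / ((j : ℝ) + 1)) d (by positivity) hd.1 hd.2
          filter_upwards [h3] with s hs _ _ hall
          obtain ⟨u, hu⟩ := hs
          exact hu (hall u)
        · exact Eventually.of_forall fun s h3 h4 => absurd ⟨h3, h4⟩ hd
      filter_upwards [h2] with s hs d h3 h4
      exact hs d (hF d h4) h3 h4
    have h2 := (Filter.eventually_all_finset (Finset.range (j + 1))).2 h1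
    filter_upwards [h2] with s hs i hi
    exact hs i (mem_range.2 (by omega))
  choose S hS using fun j => eventually_atTop.1 (key j)
  -- a function tending slowly to infinity
  obtain ⟨ψ, hψ1, hψ2⟩ : ∃ ψ : ℕ → ℕ, Tendsto ψ atTop atTop ∧ ∀ᶠ s in atTop, S (ψ s) ≤ s := by
    refine ⟨fun s => Nat.findGreatest (fun j => ∀ i ≤ j, S i ≤ s) s, ?_, ?_⟩
    · apply tendsto_atTop.2
      intro b
      filter_upwards [eventually_ge_atTop (b + ∑ i ∈ Finset.range (b + 1), S i)] with s hs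
      apply Nat.le_findGreatest (by omega)
      intro i hi
      have := single_le_sum (f := S) (fun _ _ => Nat.zero_le _) (mem_range.2 (Nat.lt_succ_of_le hi))
      simp only [Nat.succ_eq_add_one] at this
      omega
    · filter_upwards [eventually_ge_atTop (S 0)] with s hs
      have h1 : ∀ i ≤ 0, S i ≤ s := by
        intro i hi
        have : i = 0 := by omega
        subst this
        exact hs
      exact (Nat.findGreatest_spec (P := fun j => ∀ i ≤ j, S i ≤ s) (Nat.zero_le s) h1) _ le_rfl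
  have hε : Tendsto (fun s => 1 / ((ψ s : ℝ) + 1)) atTop (nhds 0) :=
    tendsto_one_div_add_atTop_nhds_zero_nat.comp hψ1
  obtain ⟨N, hN⟩ := seq_sums (Nat.factorial_pos (4 * K)) (hfour P hP h6 X hX _ hε) G hm
  -- take `h (P N)`
  have hj := hh1 (P * N)
  obtain ⟨t, ht⟩ := hh2 (P * N)
  obtain ⟨g, hg1, hg2, hg3⟩ := hN (6 * t) (by
      have h1 : P * N ≤ P * (6 * t) := by
        calc P * N ≤ h (P * N) := hj
          _ = 6 * P * t := ht
          _ = P * (6 * t) := by ring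
      exact Nat.le_of_mul_le_mul_left h1 hP) (dvd_mul_right _ _)
  have hsum : ∑ u, P * g u = h (P * N) := by
    rw [← mul_sum, hg2, ht]
    ring
  obtain ⟨s, hs1, hs2, hs3⟩ := (hg3.and_eventually (hψ2.and (hψ1.eventually_ge_atTop (P * N)))).exists
  exact hS (ψ s) s hs2 (P * N) hs3 (fun u => P * g u)
    (fun u => ⟨lt_of_lt_of_le (hg1 u) (Nat.le_mul_of_pos_left _ hP), dvd_mul_right _ _⟩) hsum hs1

end Pool.Agent.HP27.S3
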