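import Mathlib
import Pool.Agent.HP27.S3.Three
import Pool.Agent.H40E9.CM.Col
/-!
# Sums of exactly `m` exponents `k` for which `d ^ k (p - 1) + 1` is prime for many primes `p`
-/

set_option autoImplicit false

namespace Pool.Agent.HP27.S3

open Finset Filter
open Pool.Agent.H40E9.CM (Good pair4 good_of)

/-- four classes of exponents -/
theorem four_exp {d : ℕ} (hd : 2 ≤ d) : ∃ K : ℕ,
    Four K 1 {k : ℕ | Good (1 - (d : ℤ) ^ k, (d : ℤ) ^ k)} := by
  obtain ⟨K, hK, hpair⟩ := pair4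
  refine ⟨K, fun A hinj hlt _ => ?_⟩
  have hd1 : (1 : ℤ) < d := by exact_mod_cast (by omega : 1 < d)
  obtain ⟨a, b, hab, k, l, hq⟩ := hpair (fun g k => ((d : ℤ) ^ (A g k + 1), 1)) (by
      rintro ⟨g, k⟩ ⟨g', k'⟩ he
      have he1 : (d : ℤ) ^ (A g k + 1) = (d : ℤ) ^ (A g' k' + 1) := congrArg Prod.fst he
      have he2 : A g k = A g' k' := by
        have := Int.pow_right_injective (a := (d : ℤ)) (by omega) he1
        omega
      rcases lt_trichotomy g g' with h | h | h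
      · have := hlt g g' h k k'
        omega
      · subst h
        rw [hinj g he2]
      · have := hlt g' g h k' k
        omega)
    (fun g k => ⟨by show 0 < (d : ℤ) ^ (A g k + 1); positivity, isCoprime_one_right⟩)
    (by
      intro p hp _
      refine ⟨0, fun g k h => ?_⟩
      have h1 : (p : ℤ) ∣ 1 := by
        have h2 : (p : ℤ) ∣ (d : ℤ) ^ (A g k + 1) * 0 + 1 := h
        rwa [mul_zero, zero_add] at h2
      have h2 := Int.le_of_dvd one_pos h1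
      have := hp.two_le
      omega)
  refine ⟨a, b, hab, k, l, ?_⟩
  have hkl := hlt a b hab k l
  refine good_of (α := (d : ℤ) ^ (A a k + 1)) (β := 1) (by positivity) _ fun l' => ?_
  obtain ⟨C, hC⟩ := hq l'
  refine ⟨C, ?_⟩
  have e1 : (d : ℤ) ^ (A b l - A a k) * (d : ℤ) ^ (A a k + 1) = (d : ℤ) ^ (A b l + 1) := by
    rw [← pow_add]
    congr 1
    omega
  have e2 : ((d : ℤ) ^ (A b l - A a k) * (d : ℤ) ^ (A a k + 1),
      (1 - (d : ℤ) ^ (A b l - A a k)) + (d : ℤ) ^ (A b l - A a k) * 1) = ((d : ℤ) ^ (A b l + 1), (1 : ℤ)) := by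
    rw [e1]
    congr 1
    ring
  show ∃ᶠ N : ℕ in atTop, Pool.Agent.Y827.HN.QX l' C N {((d : ℤ) ^ (A a k + 1), 1),
    ((d : ℤ) ^ (A b l - A a k) * (d : ℤ) ^ (A a k + 1),
      (1 - (d : ℤ) ^ (A b l - A a k)) + (d : ℤ) ^ (A b l - A a k) * 1)} ∅
  rw [e2]
  exact hC

theorem exps {d : ℕ} (hd : 2 ≤ d) (m : ℕ) (hm : 3 ≤ m) (G : ℕ) : ∃ N : ℕ, ∀ h : ℕ, N ≤ h → 6 ∣ h →
    ∃ g : Fin m → ℕ, (∀ i, Good (1 - (d : ℤ) ^ (g i), (d : ℤ) ^ (g i)) ∧ G < g i) ∧ ∑ i, g i = h := by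
  obtain ⟨K, h4⟩ := four_exp hd
  exact sums one_pos h4 G hm

end Pool.Agent.HP27.S3
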