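import Mathlib
import Pool.Agent.HP27.S3.Three
import Pool.Agent.H40E9.SG.Main
/-!
# Sums of exactly `m` gaps between consecutive primes, `m ≥ 3`
-/

set_option autoImplicit false

namespace Pool.Agent.HP27.S3

open Finset Filter
open Pool.Agent.H40E9.SG (FourClasses Often four)

theorem gaps : ∃ B : ℕ, ∀ P q a : ℕ, 0 < P → 6 ∣ P → 1 ≤ q → q ∣ P → a.Coprime q →
    ∀ X : ℕ → ℝ, Tendsto X atTop atTop → ∀ m : ℕ, 3 ≤ m → ∀ G : ℕ, ∃ N : ℕ, ∀ h : ℕ, N ≤ h → 6 * P ∣ h →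
      ∃ g : Fin m → ℕ, (∀ i, G < g i ∧ P ∣ g i) ∧ ∑ i, g i = h ∧
        ∃ᶠ s in atTop, ∀ i, Often B q a P (X s) (g i) := by
  classical
  obtain ⟨K, B, hK, h⟩ := four
  refine ⟨B, fun P q a hP h6 hq hqP haq X hX m hm G => ?_⟩
  have h4 : FourClasses K ((4 * K).factorial) (fun s k => Often B q a P (X s) (P * k)) := by
    intro A hA1 hA2 hA3
    exact hX.eventually (h P q a hP h6 hq hqP haq A hA1 hA2 hA3)
  obtain ⟨N, hN⟩ := seq_sums (Nat.factorial_pos (4 * K)) h4 G hm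
  refine ⟨P * N, fun j hj hd => ?_⟩
  obtain ⟨t, rfl⟩ := hd
  obtain ⟨g, hg1, hg2, hg3⟩ := hN (6 * t) (by
    have h1 : P * N ≤ P * (6 * t) := by
      calc P * N ≤ 6 * P * t := hj
        _ = P * (6 * t) := by ring
    exact Nat.le_of_mul_le_mul_left h1 hP) (dvd_mul_right _ _)
  refine ⟨fun i => P * g i, fun i => ⟨lt_of_lt_of_le (hg1 i) (Nat.le_mul_of_pos_left _ hP), dvd_mul_right _ _⟩, ?_, hg3⟩
  rw [← mul_sum, hg2]
  ring

end Pool.Agent.HP27.S3
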